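import Pool.Agent.H37.CND.Stmts

/-!
# Denominators of conductors: row CVR (existence of the covers)
-/

set_option autoImplicit false

namespace Pool.CND

open Finset

/-- the orders `i m p + j m (q + 1)` are distinct modulo `p q ^ 2` -/
theorem cvr_orders (p h m : ℕ) (hp : p.Prime) (hh : 1 ≤ h) (hpm : ¬ p ∣ m)
    (i i' : Fin (p ^ (2 * h))) (j j' : Fin p)
    (hd : ((p * p ^ (2 * h) : ℕ) : ℤ) ∣
      ((i : ℕ) * -((m * p : ℕ) : ℤ) + (j : ℕ) * -((m * (p ^ h + 1) : ℕ) : ℤ)) -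
      ((i' : ℕ) * -((m * p : ℕ) : ℤ) + (j' : ℕ) * -((m * (p ^ h + 1) : ℕ) : ℤ))) :
    i = i' ∧ j = j' := by
  have hpZ : Prime (p : ℤ) := Nat.prime_iff_prime_int.1 hp
  have hpm' : ¬ (p : ℤ) ∣ (m : ℤ) := fun hc => hpm (by exact_mod_cast hc)
  have hq : ¬ (p : ℤ) ∣ ((p : ℤ) ^ h + 1) := by
    intro hc
    have h1 : (p : ℤ) ∣ (p : ℤ) ^ h := dvd_pow_self _ (by omega)
    have h2 : (p : ℤ) ∣ 1 := (dvd_add_right h1).1 hc
    exact hpZ.not_unit (isUnit_of_dvd_one h2)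
  have hj : j = j' := by
    have h1 : (p : ℤ) ∣ ((i : ℕ) * -((m * p : ℕ) : ℤ) + (j : ℕ) * -((m * (p ^ h + 1) : ℕ) : ℤ)) -
      ((i' : ℕ) * -((m * p : ℕ) : ℤ) + (j' : ℕ) * -((m * (p ^ h + 1) : ℕ) : ℤ)) :=
      (dvd_trans ⟨(p : ℤ) ^ (2 * h), by push_cast; ring⟩ hd)
    have h2 : (p : ℤ) ∣ ((j : ℕ) - (j' : ℕ) : ℤ) * ((m : ℤ) * ((p : ℤ) ^ h + 1)) := by
      have h3 : ((j : ℕ) - (j' : ℕ) : ℤ) * ((m : ℤ) * ((p : ℤ) ^ h + 1)) =
        -(((i : ℕ) * -((m * p : ℕ) : ℤ) + (j : ℕ) * -((m * (p ^ h + 1) : ℕ) : ℤ)) -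
      ((i' : ℕ) * -((m * p : ℕ) : ℤ) + (j' : ℕ) * -((m * (p ^ h + 1) : ℕ) : ℤ))) -
        (p : ℤ) * (((i : ℕ) - (i' : ℕ) : ℤ) * m) := by
        push_cast
        ring
      rw [h3]
      exact dvd_sub (h1.neg_right) (dvd_mul_right _ _)
    have h4 : (p : ℤ) ∣ ((j : ℕ) - (j' : ℕ) : ℤ) := by
      rcases hpZ.dvd_or_dvd h2 with h5 | h5
      · exact h5
      · rcases hpZ.dvd_or_dvd h5 with h6 | h6
        · exact absurd h6 hpm'
        · exact absurd h6 hq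
    have h5 : ((j : ℕ) : ℤ) - ((j' : ℕ) : ℤ) = 0 := by
      apply Int.eq_zero_of_abs_lt_dvd h4
      rw [abs_lt]
      have a1 := j.2
      have a2 := j'.2
      constructor <;> omega
    ext
    omega
  refine ⟨?_, hj⟩
  subst hj
  have h2 : ((p * p ^ (2 * h) : ℕ) : ℤ) ∣ (p : ℤ) * ((((i : ℕ) - (i' : ℕ) : ℤ)) * m) := by
    have h3 : (p : ℤ) * ((((i : ℕ) - (i' : ℕ) : ℤ)) * m) =
      -(((i : ℕ) * -((m * p : ℕ) : ℤ) + (j : ℕ) * -((m * (p ^ h + 1) : ℕ) : ℤ)) -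
      ((i' : ℕ) * -((m * p : ℕ) : ℤ) + (j : ℕ) * -((m * (p ^ h + 1) : ℕ) : ℤ))) := by
      push_cast
      ring
    rw [h3]
    exact hd.neg_right
  have h3 : ((p : ℤ) ^ (2 * h)) ∣ (((i : ℕ) - (i' : ℕ) : ℤ)) * m := by
    push_cast at h2
    exact (mul_dvd_mul_iff_left hpZ.ne_zero).1 h2
  have h4 : ((p : ℤ) ^ (2 * h)) ∣ (((i : ℕ) - (i' : ℕ) : ℤ)) := by
    have hc : IsCoprime ((p : ℤ) ^ (2 * h)) (m : ℤ) :=
      ((hpZ.coprime_iff_not_dvd).2 hpm').pow_left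
    exact hc.dvd_of_dvd_mul_right h3
  have h5 : ((i : ℕ) : ℤ) - ((i' : ℕ) : ℤ) = 0 := by
    apply Int.eq_zero_of_abs_lt_dvd h4
    rw [abs_lt]
    have a1 := i.2
    have a2 := i'.2
    have a3 : ((p : ℤ) ^ (2 * h)) = ((p ^ (2 * h) : ℕ) : ℤ) := by push_cast; rfl
    rw [a3]
    constructor <;> omega
  ext
  omega

/-- a combination of the three orders is `1` -/
theorem cvr_bezout (p h m : ℕ) (hp : p.Prime) (hh : 1 ≤ h) (hpm : ¬ p ∣ m) :
    ∃ a b c : ℤ, a * -((p * p ^ (2 * h) : ℕ) : ℤ) + b * -((m * p : ℕ) : ℤ) +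
      c * -((m * (p ^ h + 1) : ℕ) : ℤ) = 1 := by
  have hpZ : Prime (p : ℤ) := Nat.prime_iff_prime_int.1 hp
  have hpm' : ¬ (p : ℤ) ∣ (m : ℤ) := fun hc => hpm (by exact_mod_cast hc)
  have hc : IsCoprime ((p : ℤ) * (p : ℤ) ^ (2 * h)) (m : ℤ) :=
    (((hpZ.coprime_iff_not_dvd).2 hpm')).mul_left
      ((hpZ.coprime_iff_not_dvd).2 hpm').pow_left
  obtain ⟨u, v, huv⟩ := hc
  obtain ⟨n, rfl⟩ : ∃ n, h = n + 1 := ⟨h - 1, by omega⟩
  -- 1 = (q + 1) - p * p ^ n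
  refine ⟨-u, v * (p : ℤ) ^ n, -v, ?_⟩
  push_cast
  have e : (p : ℤ) ^ (n + 1) = (p : ℤ) * (p : ℤ) ^ n := by ring
  linear_combination huv

theorem cvr_core (p : ℕ) (k : Type) [Field k] [Fact p.Prime] [CharP k p] (h m : ℕ) (hh : 1 ≤ h)
    (hm : 1 ≤ m) (hpm : ¬ p ∣ m) (L : Type) [Field L] [Algebra (RatFunc k) L] [Algebra k L]
    [IsScalarTower k (RatFunc k) L] (x y : L)
    (ex : x ^ (p ^ (2 * h)) + x = algebraMap (RatFunc k) L (RatFunc.X ^ m))
    (ey : y ^ p - y = x ^ (p ^ h + 1))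
    (hspan : ∀ z : L, ∃ c : Fin (p ^ (2 * h)) → Fin p → RatFunc k,
      z = ∑ i, ∑ j, algebraMap (RatFunc k) L (c i j) * x ^ (i : ℕ) * y ^ (j : ℕ))
    (ρ : EG k p h →* (L ≃ₐ[RatFunc k] L))
    (hρ : ∀ g : EG k p h, ρ g x = x + algebraMap k L g.w ∧
      ρ g y = y + Bf p h (algebraMap k L g.w) x + algebraMap k L g.β)
    (Λ : Place k (LaurentSeries k)) (ι : RatFunc k →ₐ[k] LaurentSeries k)
    (φ : L →+* LaurentSeries k) (hφ : ∀ c, φ (algebraMap (RatFunc k) L c) = ι c)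
    (hS0 : ι RatFunc.X ≠ 0) (hX0 : φ x ≠ 0) (hY0 : φ y ≠ 0)
    (hS : Λ.ord (ι RatFunc.X) = -((p * p ^ (2 * h) : ℕ) : ℤ))
    (hX : Λ.ord (φ x) = -((m * p : ℕ) : ℤ)) (hY : Λ.ord (φ y) = -((m * (p ^ h + 1) : ℕ) : ℤ))
    (hι : ∀ c : RatFunc k, c ≠ 0 → ((p * p ^ (2 * h) : ℕ) : ℤ) ∣ Λ.ord (ι c)) :
    ∃ (s x y : L) (ρ' : EG k p h →* (L ≃ₐ[k] L)) (P : Place k L), Cvr p k L h m s x y ρ' P := by
  have hp := (Fact.out : p.Prime)
  have hinj : Function.Injective φ := φ.injective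
  have hφ0 : ∀ z : L, z ≠ 0 → φ z ≠ 0 := fun z hz hc => hz (hinj (by rw [hc, map_zero]))
  have hφk : ∀ c : k, φ (algebraMap k L c) = algebraMap k (LaurentSeries k) c := by
    intro c
    rw [IsScalarTower.algebraMap_apply k (RatFunc k) L, hφ, ι.commutes]
  have hx0 : x ≠ 0 := fun hc => hX0 (by rw [hc, map_zero])
  have hy0 : y ≠ 0 := fun hc => hY0 (by rw [hc, map_zero])
  have hs0 : algebraMap (RatFunc k) L RatFunc.X ≠ 0 := fun hc => hS0 (by rw [← hφ, hc, map_zero])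
  let P : Place k L :=
    { ord := fun z => Λ.ord (φ z)
      ord_mul := fun a b ha hb => by
        simp only [map_mul]
        exact Λ.ord_mul _ _ (hφ0 a ha) (hφ0 b hb)
      ord_add := fun a b ha hb hab => by
        have := Λ.ord_add (φ a) (φ b) (hφ0 a ha) (hφ0 b hb) (by rw [← map_add]; exact hφ0 _ hab)
        simpa only [map_add] using this
      ord_surj := by
        obtain ⟨a, b, c, habc⟩ := cvr_bezout p h m hp hh hpm
        refine ⟨(algebraMap (RatFunc k) L RatFunc.X) ^ a * x ^ b * y ^ c, ?_, ?_⟩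
        · exact mul_ne_zero (mul_ne_zero (zpow_ne_zero _ hs0) (zpow_ne_zero _ hx0))
            (zpow_ne_zero _ hy0)
        · rw [map_mul, map_mul, map_zpow₀, map_zpow₀, map_zpow₀, hφ,
            Λ.ord_mul _ _ (mul_ne_zero (zpow_ne_zero _ hS0) (zpow_ne_zero _ hX0))
            (zpow_ne_zero _ hY0), Λ.ord_mul _ _ (zpow_ne_zero _ hS0) (zpow_ne_zero _ hX0),
            Λ.ord_zpow hS0, Λ.ord_zpow hX0, Λ.ord_zpow hY0, hS, hX, hY]
          exact habc
      ord_const := fun c hc => by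
        rw [hφk]
        exact Λ.ord_const c hc
      residue := fun z hz hz0 => by
        obtain ⟨c, hc⟩ := Λ.residue (φ z) (hφ0 z hz) hz0
        refine ⟨c, ?_⟩
        rcases hc with hc | hc
        · left
          apply hinj
          rw [hc, hφk]
        · right
          rw [map_sub, hφk]
          exact hc }
  have hPord : ∀ z : L, P.ord z = Λ.ord (φ z) := fun z => rfl
  have hadj : ∀ z : L, z ∈ IntermediateField.adjoin k {algebraMap (RatFunc k) L RatFunc.X} ↔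
      ∃ c : RatFunc k, algebraMap (RatFunc k) L c = z := by
    intro z
    have h1 : IntermediateField.adjoin k {algebraMap (RatFunc k) L RatFunc.X} =
        (IsScalarTower.toAlgHom k (RatFunc k) L).fieldRange := by
      have h2 := IntermediateField.adjoin_map k {(RatFunc.X : RatFunc k)}
        (IsScalarTower.toAlgHom k (RatFunc k) L)
      rw [RatFunc.adjoin_X, Set.image_singleton] at h2
      rw [AlgHom.fieldRange_eq_map]
      exact h2.symm
    rw [h1]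
    simp only [AlgHom.mem_fieldRange, IsScalarTower.coe_toAlgHom']
  refine ⟨algebraMap (RatFunc k) L RatFunc.X, x, y,
    (AlgEquiv.restrictScalarsHom k : (L ≃ₐ[RatFunc k] L) →* (L ≃ₐ[k] L)).comp ρ, P, ?_⟩
  have hρ' : ∀ (g : EG k p h) (z : L),
      (AlgEquiv.restrictScalarsHom k : (L ≃ₐ[RatFunc k] L) →* (L ≃ₐ[k] L)).comp ρ g z = ρ g z :=
    fun g z => rfl
  exact
    { eq_x := by rw [ex, map_pow]
      eq_y := ey
      act_s := fun g => by rw [hρ']; exact (ρ g).commutes _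
      act_x := fun g => by rw [hρ']; exact (hρ g).1
      act_y := fun g => by rw [hρ']; exact (hρ g).2
      s_ne := hs0
      x_ne := hx0
      y_ne := hy0
      ord_s := by rw [hPord, hφ]; exact hS
      ord_x := by rw [hPord]; exact hX
      ord_y := by rw [hPord]; exact hY
      tr := (transcendental_algebraMap_iff (algebraMap (RatFunc k) L).injective).2
        RatFunc.transcendental_X
      span := fun z => by
        obtain ⟨c, hc⟩ := hspan z
        exact ⟨fun i j => algebraMap (RatFunc k) L (c i j), fun i j => (hadj _).2 ⟨c i j, rfl⟩, hc⟩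
      ord_base := fun c hc hc0 => by
        obtain ⟨r, rfl⟩ := (hadj c).1 hc
        rw [hPord, hφ]
        exact hι r (fun h0 => hc0 (by rw [h0, map_zero])) }

theorem cvr_thm (hUNI : S_UNI) (hUNA : S_UNA) (hSRS : S_SRS) (hEMB : S_EMB) (hLSP : S_LSP)
    (hVEC : S_VEC) : S_CVR := by
  intro p k _ _ _ h m hh hm hpm
  have hp := (Fact.out : p.Prime)
  obtain ⟨Λ, hΛ⟩ := hLSP k
  obtain ⟨S, X, Y, hS0, hX0, hY0, hoS, hoX, hoY, e1, e2⟩ :=
    hSRS p k h m hp inferInstance hh hm hpm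
  obtain ⟨ι, hιX, hιo⟩ := hEMB k (p * p ^ (2 * h)) S
    (Nat.one_le_iff_ne_zero.2 (mul_ne_zero hp.ne_zero (pow_ne_zero _ hp.ne_zero))) hS0 hoS
  have hι0 : ∀ c : RatFunc k, c ≠ 0 → ι c ≠ 0 := fun c hc => (map_ne_zero ι).2 hc
  obtain ⟨R, iR, iA, x, y, ex, ey, hspan, huniv⟩ := hUNI (RatFunc k) p h (RatFunc.X ^ m) hp hh
  letI iAk : Algebra k R := ((algebraMap (RatFunc k) R).comp (algebraMap k (RatFunc k))).toAlgebra
  haveI : IsScalarTower k (RatFunc k) R := IsScalarTower.of_algebraMap_eq (fun _ => rfl)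
  obtain ⟨ρ, hρ⟩ := hUNA p k (RatFunc k) R h (RatFunc.X ^ m) x y hh ex ey hspan
    (fun x' y' hx' hy' => huniv R x' y' hx' hy')
  obtain ⟨φ, hφx, hφy, hφ⟩ : ∃ φ : R →+* LaurentSeries k, φ x = X ∧ φ y = Y ∧
      ∀ c, φ (algebraMap (RatFunc k) R c) = ι c := by
    letI : Algebra (RatFunc k) (LaurentSeries k) := ι.toRingHom.toAlgebra
    obtain ⟨φ, h1, h2⟩ := huniv (LaurentSeries k) X Y (by
      rw [e1]
      show S ^ m = ι (RatFunc.X ^ m)
      rw [map_pow, hιX]) e2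
    exact ⟨φ.toRingHom, h1, h2, fun c => φ.commutes c⟩
  have hinj : Function.Injective φ := by
    rw [injective_iff_map_eq_zero]
    intro z hz
    obtain ⟨c, hc⟩ := hspan z
    by_contra hz0
    have hne : ∃ i : Fin (p ^ (2 * h)) × Fin p, c i.1 i.2 ≠ 0 := by
      by_contra hall
      push Not at hall
      apply hz0
      rw [hc]
      refine sum_eq_zero fun i _ => sum_eq_zero fun j _ => ?_
      rw [hall (i, j), map_zero, zero_mul, zero_mul]
    have h1 := hVEC k (LaurentSeries k) (Fin (p ^ (2 * h)) × Fin p) Λ (p * p ^ (2 * h))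
      (fun i => X ^ (i.1 : ℕ) * Y ^ (i.2 : ℕ)) (fun i => ι (c i.1 i.2))
      (Nat.one_le_iff_ne_zero.2 (mul_ne_zero hp.ne_zero (pow_ne_zero _ hp.ne_zero)))
      (fun i => mul_ne_zero (pow_ne_zero _ hX0) (pow_ne_zero _ hY0))
      (by
        rintro ⟨i, j⟩ ⟨i', j'⟩ hij hd
        apply hij
        rw [Λ.ord_mul _ _ (pow_ne_zero _ hX0) (pow_ne_zero _ hY0),
          Λ.ord_mul _ _ (pow_ne_zero _ hX0) (pow_ne_zero _ hY0), Λ.ord_pow hX0, Λ.ord_pow hX0,
          Λ.ord_pow hY0, Λ.ord_pow hY0, hΛ X hX0, hΛ Y hY0, hoX, hoY] at hd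
        obtain ⟨h2, h3⟩ := cvr_orders p h m hp hh hpm i i' j j' hd
        rw [h2, h3])
      (by
        intro i
        by_cases h0 : c i.1 i.2 = 0
        · left
          show ι (c i.1 i.2) = 0
          rw [h0, map_zero]
        · right
          show _ ∣ Λ.ord (ι (c i.1 i.2))
          rw [hΛ _ (hι0 _ h0)]
          exact hιo _ h0)
      (by
        obtain ⟨i, hi⟩ := hne
        exact ⟨i, hι0 _ hi⟩)
    apply h1.1
    rw [← hz, hc, map_sum, Fintype.sum_prod_type]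
    refine sum_congr rfl fun i _ => ?_
    rw [map_sum]
    refine sum_congr rfl fun j _ => ?_
    rw [map_mul, map_mul, map_pow, map_pow, hφ, hφx, hφy, mul_assoc]
  haveI : IsDomain R := hinj.isDomain φ
  haveI : Module.Finite (RatFunc k) R := by
    classical
    refine ⟨⟨(univ : Finset (Fin (p ^ (2 * h)) × Fin p)).image
      (fun i => x ^ (i.1 : ℕ) * y ^ (i.2 : ℕ)), ?_⟩⟩
    rw [eq_top_iff]
    intro z _
    obtain ⟨c, hc⟩ := hspan z
    rw [hc]
    refine Submodule.sum_mem _ fun i _ => Submodule.sum_mem _ fun j _ => ?_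
    rw [mul_assoc, ← Algebra.smul_def]
    apply Submodule.smul_mem
    apply Submodule.subset_span
    simp only [coe_image, coe_univ, Set.image_univ, Set.mem_range]
    exact ⟨(i, j), rfl⟩
  have hF : IsField R := isField_of_isIntegral_of_isField' (Field.toIsField (RatFunc k))
  letI iF : Field R := hF.toField
  obtain ⟨s, x', y', ρ', P, hC⟩ := cvr_core p k h m hh hm hpm R x y ex ey hspan ρ hρ Λ ι φ hφ
    (by rw [hιX]; exact hS0) (by rw [hφx]; exact hX0) (by rw [hφy]; exact hY0)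
    (by rw [hιX, hΛ S hS0]; exact hoS) (by rw [hφx, hΛ X hX0]; exact hoX)
    (by rw [hφy, hΛ Y hY0]; exact hoY)
    (by
      intro c hc
      rw [hΛ _ (hι0 _ hc)]
      exact hιo c hc)
  exact ⟨R, iF, iAk, s, x', y', ρ', P, hC⟩

end Pool.CND
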