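import Pool.Agent.H1.CND.SAM
import Pool.Agent.H1.CNH.HCY
import Pool.Agent.H1.CNK.DVA
import Pool.Agent.H1.CNK.DVV
import Pool.Agent.H1.CNP.EXI
import Pool.Agent.H1.CNS.TWB
import Pool.Agent.H1.CNT.E2S
import Pool.Agent.H1.CNU.UNO
import Pool.Agent.H1.CNX.XES
import Pool.Agent.H1.CNY.YLM
import Pool.Agent.H1.CNZ.TWI
import Pool.Agent.H1.CSZ.ZU1
import Pool.Agent.H12.CND.EMB
import Pool.Agent.H12.CND.LSP
import Pool.Agent.H12.CNP.DGR
import Pool.Agent.H12.CNP.ELH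
import Pool.Agent.H13.CNS.TWG
import Pool.Agent.H14.CND.TOT
import Pool.Agent.H14.CNH.UQT
import Pool.Agent.H14.CNL.ZUW
import Pool.Agent.H14.CNS.OM1
import Pool.Agent.H14.CNS.REG
import Pool.Agent.H14.CNU.UNC
import Pool.Agent.H14.CNW.PRF
import Pool.Agent.H14.CNX.XGR
import Pool.Agent.H14.CNY.INC
import Pool.Agent.H14.CNY.YCR
import Pool.Agent.H14.CNZ.ZBD
import Pool.Agent.H16.CNK.CHY
import Pool.Agent.H16.CNU.UNF
import Pool.Agent.H17.CND.LON
import Pool.Agent.H17.CND.ZPW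
import Pool.Agent.H17.CNH.HCN
import Pool.Agent.H17.CNH.HXS
import Pool.Agent.H17.CNK.DVB
import Pool.Agent.H17.CNK.THT
import Pool.Agent.H17.CNL.VE2
import Pool.Agent.H17.CNP.TRM
import Pool.Agent.H17.CNR.WQU
import Pool.Agent.H17.CNR.WRU
import Pool.Agent.H17.CNT.E2M
import Pool.Agent.H17.CNT.PU2
import Pool.Agent.H17.CNU.UND
import Pool.Agent.H17.CNU.UNN
import Pool.Agent.H17.CNV.VSU
import Pool.Agent.H17.CNX.XAP
import Pool.Agent.H17.CNX.XTH
import Pool.Agent.H18.CND.HBP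
import Pool.Agent.H18.CNH.HTR
import Pool.Agent.H18.CNS.LEX
import Pool.Agent.H18.CNY.YPM
import Pool.Agent.H18.CNY.YTH
import Pool.Agent.H18.CNZ.CCO
import Pool.Agent.H18.CSZ.ZZB
import Pool.Agent.H19.CNS.PRD
import Pool.Agent.H19.CNS.PZE
import Pool.Agent.H2.CND.CNG
import Pool.Agent.H2.CND.LOW
import Pool.Agent.H2.CNE.SLD
import Pool.Agent.H2.CNE.SLI
import Pool.Agent.H2.CNE.SLO
import Pool.Agent.H2.CNK.POI
import Pool.Agent.H2.CNK.YQQ
import Pool.Agent.H2.CNL.VHT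
import Pool.Agent.H2.CNP.DLO
import Pool.Agent.H2.CNP.DUN
import Pool.Agent.H2.CNR.WRT
import Pool.Agent.H2.CNR.WUN
import Pool.Agent.H2.CNS.CYU
import Pool.Agent.H2.CNS.TRB
import Pool.Agent.H2.CNT.PU4
import Pool.Agent.H2.CNT.PUL
import Pool.Agent.H2.CNU.UNS
import Pool.Agent.H2.CNU.UNT
import Pool.Agent.H2.CNZ.CES
import Pool.Agent.H2.CNZ.CUN
import Pool.Agent.H2.CSZ.ISO
import Pool.Agent.H2.CSZ.ZZC
import Pool.Agent.H21.CSZ.ZZK
import Pool.Agent.H21.CSZ.ZZT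
import Pool.Agent.H22.CND.ELA
import Pool.Agent.H22.CNJ.HC2
import Pool.Agent.H22.CNL.VPO
import Pool.Agent.H22.CNM.APA
import Pool.Agent.H22.CNP.DFI
import Pool.Agent.H22.CNT.S2C
import Pool.Agent.H22.CNW.XSY
import Pool.Agent.H22.CNX.XT2
import Pool.Agent.H23.CND.EGA
import Pool.Agent.H23.CND.SRS
import Pool.Agent.H23.CNK.BAS
import Pool.Agent.H23.CNK.YML
import Pool.Agent.H23.CNL.VVG
import Pool.Agent.H23.CNS.FUN
import Pool.Agent.H23.CNS.TWC
import Pool.Agent.H23.CNW.XPP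
import Pool.Agent.H23.CNX.XGA
import Pool.Agent.H25.CND.PTC
import Pool.Agent.H25.CNJ.PMY
import Pool.Agent.H25.CNL.VIN
import Pool.Agent.H25.CNU.UNP
import Pool.Agent.H25.CSZ.ZU3
import Pool.Agent.H26.CNM.ALP
import Pool.Agent.H26.CNR.WP1
import Pool.Agent.H26.CNS.VLF
import Pool.Agent.H26.CNW.XNH
import Pool.Agent.H26.CNZ.CJC
import Pool.Agent.H26.CNZ.CMU
import Pool.Agent.H26.CNZ.UQM
import Pool.Agent.H27.CND.CVC
import Pool.Agent.H29.CNQ.NQD
import Pool.Agent.H29.CNY.YT2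
import Pool.Agent.H3.CND.ART
import Pool.Agent.H3.CNS.ZUC
import Pool.Agent.H3.CNZ.QCC
import Pool.Agent.H3.CSZ.ZZP
import Pool.Agent.H31.CNW.XGX
import Pool.Agent.H33.CNR.WRL
import Pool.Agent.H34.CND.LO2
import Pool.Agent.H34.CND.PTA
import Pool.Agent.H34.CNL.VAS
import Pool.Agent.H34.CNL.VVA
import Pool.Agent.H34.CNS.GDV
import Pool.Agent.H34.CNW.XRR
import Pool.Agent.H36.CND.CMB
import Pool.Agent.H36.CND.NGD
import Pool.Agent.H36.CND.WLD
import Pool.Agent.H36.CNS.DLS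
import Pool.Agent.H36.CNW.XPU
import Pool.Agent.H36.CNZ.PE0
import Pool.Agent.H37.CND2.CVR
import Pool.Agent.H40.CND.NGE
import Pool.Agent.H40.CND.TMO
import Pool.Agent.H40.CNE.SLN
import Pool.Agent.H40.CNE.SLR
import Pool.Agent.H40.CNE.SLU
import Pool.Agent.H40.CNK.ME2
import Pool.Agent.H40.CNL.VE3
import Pool.Agent.H40.CNP.PSA
import Pool.Agent.H40.CNP.PSO
import Pool.Agent.H40.CNP.PSR
import Pool.Agent.H40.CNP.PSU
import Pool.Agent.H40.CNQ.TRV
import Pool.Agent.H40.CNS.PRL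
import Pool.Agent.H40.CNT.PU3
import Pool.Agent.H40.CNU.UNB
import Pool.Agent.H40.CNX.XFI
import Pool.Agent.H41.CNK.PCN
import Pool.Agent.H42.CND.ELG
import Pool.Agent.H42.CNH.ABC
import Pool.Agent.H42.CNT.PUN
import Pool.Agent.H44.CND.MAX
import Pool.Agent.H44.CNE.SLW
import Pool.Agent.H44.CNS.TAC
import Pool.Agent.H44.CNY.TAX
import Pool.Agent.H44.CNZ.ZCV
import Pool.Agent.H45.CND.PTB
import Pool.Agent.H45.CNE.SLX
import Pool.Agent.H45.CNW.XPQ
import Pool.Agent.H45.CNY.HAC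
import Pool.Agent.H45.CNY.YOS
import Pool.Agent.H46.CNH.UPB
import Pool.Agent.H46.CNJ.RKP
import Pool.Agent.H46.CNK.WCA
import Pool.Agent.H46.CNQ.QU1
import Pool.Agent.H46.CNR.NBX
import Pool.Agent.H46.CNY.YT3
import Pool.Agent.H46.CNY.YT4
import Pool.Agent.H46.CNY.YTA
import Pool.Agent.H47.CNK.HI1
import Pool.Agent.H47.CNK.PCQ
import Pool.Agent.H47.CNP.ASR
import Pool.Agent.H47.CNP.POL
import Pool.Agent.H47.CNS.ALT
import Pool.Agent.H48.CNE.SLE
import Pool.Agent.H48.CNM.APB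
import Pool.Agent.H48.CNR.FNA
import Pool.Agent.H48.CNW.XCC
import Pool.Agent.H49.CNS.NCL
import Pool.Agent.H49.CNW.XD2
import Pool.Agent.H49.CSZ.ZZX
import Pool.Agent.H50.CND.SYG
import Pool.Agent.H50.CND.UPA
import Pool.Agent.H50.CNL.VIS
import Pool.Agent.H50.CNQ.EXS
import Pool.Agent.H50.CNR.WP4
import Pool.Agent.H50.CNT.RSP
import Pool.Agent.H50.CNU.UNK
import Pool.Agent.H50.CNX.XUN
import Pool.Agent.H50.CNY.ZUB
import Pool.Agent.H50.CSZ.ZU4
import Pool.Agent.H51.CND.UNA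
import Pool.Agent.H51.CNE.SLS
import Pool.Agent.H51.CNK.LBZ
import Pool.Agent.H51.CNL.VIC
import Pool.Agent.H51.CNS.PUB
import Pool.Agent.H51.CNY.YCC
import Pool.Agent.H51.CSZ.ZZA
import Pool.Agent.H52.CND.VEC
import Pool.Agent.H52.CND.WPG
import Pool.Agent.H52.CNK.OBS
import Pool.Agent.H52.CNK.YIC
import Pool.Agent.H52.CNS.INF
import Pool.Agent.H52.CNU.UNL
import Pool.Agent.H52.CNW.XRL
import Pool.Agent.H52.CNY.UPC
import Pool.Agent.H53.CNK.DKK
import Pool.Agent.H53.CNL.VBZ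
import Pool.Agent.H53.CNM.APD
import Pool.Agent.H53.CNS.CY2
import Pool.Agent.H53.CSZ.ZZV
import Pool.Agent.H54.CND.CONC
import Pool.Agent.H54.CNJ.UTS
import Pool.Agent.H54.CNL.GDW
import Pool.Agent.H54.CNT.E2F
import Pool.Agent.H54.CNU.UNE
import Pool.Agent.H54.CNV.VB1
import Pool.Agent.H54.CNX.XLO
import Pool.Agent.H54.CNZ.TRS
import Pool.Agent.H55.CNE.SLT
import Pool.Agent.H55.CNK.ITG
import Pool.Agent.H55.CNL.INP
import Pool.Agent.H55.CNY.YPP
import Pool.Agent.H56.CNL.HAP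
import Pool.Agent.H56.CNQ.QU2
import Pool.Agent.H56.CNR.WCC
import Pool.Agent.H61.CNE.SLG
import Pool.Agent.H61.CNS.PZ5
import Pool.Agent.H61.CSZ.ZZG
import Pool.Agent.H62.CND.IRR
import Pool.Agent.H62.CNE.SBP
import Pool.Agent.H62.CNE.SLV
import Pool.Agent.H62.CNH.HAB
import Pool.Agent.H62.CNK.LPO
import Pool.Agent.H62.CNL.PEE
import Pool.Agent.H62.CNP.GAL
import Pool.Agent.H62.CNR.WLX
import Pool.Agent.H62.CNS.QCG
import Pool.Agent.H62.CNT.E2I
import Pool.Agent.H62.CNU.UNR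
import Pool.Agent.H62.CNW.XD4
import Pool.Agent.H62.CNZ.ZRA
import Pool.Agent.H62.CNZ.ZRB
import Pool.Agent.H63.CND.IND
import Pool.Agent.H63.CNS.OM3
import Pool.Agent.H63.CNX.XRD
import Pool.Agent.H63.CNZ.ZGD
import Pool.Agent.H64.CND.INJ
import Pool.Agent.H64.CNS.OM2
import Pool.Agent.H65.CNL.VDG
import Pool.Agent.H65.CNS.DER
import Pool.Agent.H65.CNT.PU1
import Pool.Agent.H65.CNV.VGW
import Pool.Agent.H65.CNY.DIV
import Pool.Agent.H65.CNY.DVW
import Pool.Agent.H65.CNY.YSR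
import Pool.Agent.H65.CNZ.ZHF
import Pool.Agent.H66.CNK.PCZ
import Pool.Agent.H66.CNR.WP3
import Pool.Agent.H66.CNS.PTR
import Pool.Agent.H66.CNU.UNG
import Pool.Agent.H66.CNZ.CIR
import Pool.Agent.H66.CSZ.ZZR
import Pool.Agent.H67.CND.RAM
import Pool.Agent.H67.CNH.HST
import Pool.Agent.H67.CNJ.HC1
import Pool.Agent.H67.CNL.VVB
import Pool.Agent.H67.CNR.WRS
import Pool.Agent.H67.CNR.WUB
import Pool.Agent.H67.CNS.DES
import Pool.Agent.H67.CNW.XPW
import Pool.Agent.H67.CNW.XUX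
import Pool.Agent.H67.CNX.XPO
import Pool.Agent.H70.CNJ.UT4
import Pool.Agent.H70.CNL.VHY
import Pool.Agent.H70.CNR.WP2
import Pool.Agent.H70.CNV.VB2
import Pool.Agent.H70.CNY.YT1
import Pool.Agent.H70.CNZ.CMA
import Pool.Agent.H71.CND.UMW
import Pool.Agent.H71.CNH.INB
import Pool.Agent.H71.CNL.VQQ
import Pool.Agent.H71.CNS.PZ6
import Pool.Agent.H71.CNY.YDV
import Pool.Agent.H71.CNZ.ZHH
import Pool.Agent.H71.CSZ.ZU2
import Pool.Agent.H72.CNK.ME1
import Pool.Agent.H72.CNK.QSM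
import Pool.Agent.H72.CNL.KEP
import Pool.Agent.H72.CNS.FRC
import Pool.Agent.H72.CSZ.ZZL
import Pool.Agent.H73.CND.CVF
import Pool.Agent.H73.CND.CVN
import Pool.Agent.H73.CNP.DCO
import Pool.Agent.H73.CNP.HBX
import Pool.Agent.H74.CNK.MLA
import Pool.Agent.H74.CNL.VLA
import Pool.Agent.H74.CNY.YLC
import Pool.Agent.H74.CNY.YLD
import Pool.Agent.H74.CNZ.CUQ
import Pool.Agent.H74.CNZ.ZFF
import Pool.Agent.H74.CNZ.ZHD
import Pool.Agent.H76.CNK.DRU
import Pool.Agent.H78.CND.CVB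
import Pool.Agent.H78.CND.NGL
import Pool.Agent.H78.CND.RST
import Pool.Agent.H78.CNE.SLB
import Pool.Agent.H78.CNE.SLF
import Pool.Agent.H78.CNJ.UT3
import Pool.Agent.H78.CNK.HIN
import Pool.Agent.H78.CNM.PMX
import Pool.Agent.H78.CNP.PSB
import Pool.Agent.H78.CNP.RMX
import Pool.Agent.H78.CNP.WAP
import Pool.Agent.H78.CNS.ASD
import Pool.Agent.H78.CNW.XLY
import Pool.Agent.H78.CNZ.PEX
import Pool.Agent.H78.CNZ.ZMN
import Pool.Agent.H78.CSZ.ZZN
import Pool.Agent.H79.CNE.TMC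
import Pool.Agent.H79.CNE.TMI
import Pool.Agent.H79.CNE.UPG
import Pool.Agent.H80.CNK.DRH
import Pool.Agent.H80.CNL.VSM
import Pool.Agent.H80.CNW.XD1
import Pool.Agent.H81.CNK.PCG
import Pool.Agent.H81.CNR.WRP
import Pool.Agent.H85.CNS.ASG
import Pool.Agent.H86.CNH.SYB
import Pool.Agent.H86.CNK.AVG
import Pool.Agent.H86.CNK.WCO
import Pool.Agent.H86.CNL.VCZ
import Pool.Agent.H86.CNL.VML
import Pool.Agent.H86.CNM.APE
import Pool.Agent.H86.CNQ.ALL
import Pool.Agent.H86.CNQ.QUO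
import Pool.Agent.H86.CNR.WRE
import Pool.Agent.H86.CNR.WUV
import Pool.Agent.H86.CNS.PRU
import Pool.Agent.H86.CNU.UNV
import Pool.Agent.H86.CNU.UNX
import Pool.Agent.H86.CNV.VGP
import Pool.Agent.H86.CNV.VPU
import Pool.Agent.H86.CNV.VZC
import Pool.Agent.H86.CNX.XDC
import Pool.Agent.H86.CNX.XEF
import Pool.Agent.H86.CSZ.ZZE
import Pool.Agent.H88.CND.EXP
import Pool.Agent.H88.CND.FXP
import Pool.Agent.H88.CND.QIS
import Pool.Agent.H88.CNH.HSD
import Pool.Agent.H88.CNR.FNL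
import Pool.Agent.H88.CNX.XCO
import Pool.Agent.H88.CNZ.CGA
import Pool.Agent.H89.CNJ.HC3
import Pool.Agent.H89.CNK.DRV
import Pool.Agent.H89.CNW.XDI
import Pool.Agent.H90.CND.EGC
import Pool.Agent.H90.CND.EGZ
import Pool.Agent.H90.CNP.CNV
import Pool.Agent.H90.CNP.PSW
import Pool.Agent.H90.CNV.TAM
import Pool.Agent.H90.CNY.YCY
import Pool.Agent.H90.CSZ.ZZF
import Pool.Agent.H90.CSZ.ZZZ
import Pool.Agent.H91.CNK.DRP
import Pool.Agent.H91.CNL.VVV
import Pool.Agent.H91.CNM.PMZ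
import Pool.Agent.H91.CNR.WLY
import Pool.Agent.H91.CNW.XNU
import Pool.Agent.H93.CND.HER
import Pool.Agent.H93.CND.UNI
import Pool.Agent.H93.CNK.ME3
import Pool.Agent.H93.CNL.VE1
import Pool.Agent.H93.CNL.VI1
import Pool.Agent.H93.CNS.PZ7
import Pool.Agent.H97.CNK.YIS
import Pool.Agent.H99.CND.SUB
import Pool.Agent.H99.CNE.SRL
import Pool.Agent.H99.CNK.RDG
import Pool.Agent.H99.CNL.VTG
import Pool.Agent.H99.CNR.WGX
import Pool.Agent.H99.CNS.LBQ
import Pool.Agent.H99.CNX.XT1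
import Pool.Agent.H99.CNY.YLO

/-!
# Denominators of conductors: the rows, closed
-/

set_option autoImplicit false

namespace Pool.CND

theorem regc : S_EGC := _root_.Pool.CND.egc_thm
theorem rega : S_EGA := _root_.Pool.CND.ega_thm regc
theorem rsrs : S_SRS := _root_.Pool.CND.srs_thm
theorem rsyg : S_SYG := _root_.Pool.CND.syg_thm
theorem rsub : S_SUB := _root_.Pool.CND.sub_thm
theorem rexp : S_EXP := _root_.Pool.CND.exp_thm
theorem rzpw : S_ZPW := _root_.Pool.CND.zpw_thm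
theorem rlon : S_LON := _root_.Pool.CND.lon_thm rexp rzpw
theorem rwpg : S_WPG := _root_.Pool.CND.wpg_thm rlon
theorem rtmo : S_TMO := _root_.Pool.CND.tmo_thm rexp
theorem rwld : S_WLD := _root_.Pool.CND.wld_thm rsub rwpg rtmo
theorem rinj : S_INJ := _root_.Pool.CND.inj_thm rlon
theorem rram : S_RAM := _root_.Pool.CND.ram_thm rlon rinj
theorem rumw : S_UMW := _root_.Pool.CND.umw_thm rram rlon rinj
theorem rtot : S_TOT := _root_.Pool.CND.tot_thm
theorem rfxp : S_FXP := _root_.Pool.CND.fxp_thm rtot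
theorem rrst : S_RST := _root_.Pool.CND.rst_thm
theorem rart : S_ART := _root_.Pool.CND.art_thm
theorem rher : S_HER := _root_.Pool.CND.her_thm rlon rinj
theorem rsam : S_SAM := _root_.Pool.CND.sam_thm rlon rinj
theorem rlo2 : S_LO2 := _root_.Pool.CND.lo2_thm rexp rzpw rlon
theorem rirr : S_IRR := _root_.Pool.CND.irr_thm rlo2
theorem rhbp : S_HBP := _root_.Pool.CND.hbp_thm rfxp rrst rart rher rsam rirr rumw rinj
theorem rmax : S_MAX := _root_.Pool.CND.max_thm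
theorem rcmb : S_CMB := _root_.Pool.CND.cmb_thm
theorem relg : S_ELG := _root_.Pool.CND.elg_thm
theorem rela : S_ELA := _root_.Pool.CND.ela_thm relg rcmb
theorem rind : S_IND := _root_.Pool.CND.ind_thm rmax rcmb rela
theorem rcon : S_CON := _root_.Pool.CND.con_thm rram
theorem rupa : S_UPA := _root_.Pool.CND.upa_thm rwld rumw rhbp rsyg rind rcon
theorem rcvc : S_CVC := _root_.Pool.CND.cvc_thm regc
theorem runi : S_UNI := _root_.Pool.CND.uni_thm
theorem runa : S_UNA := _root_.Pool.CND.una_thm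
theorem remb : S_EMB := _root_.Pool.CND.emb_thm
theorem rlsp : S_LSP := _root_.Pool.CND.lsp_thm
theorem rvec : S_VEC := _root_.Pool.CND.vec_thm
theorem rcvr : S_CVR := _root_.Pool.CND.cvr_thm runi runa rsrs remb rlsp rvec
theorem rcvf : S_CVF := _root_.Pool.CND.cvf_thm rvec
theorem rcvb : S_CVB := _root_.Pool.CND.cvb_thm rcvf rtmo rlo2 rinj regc
theorem rcvn : S_CVN := _root_.Pool.CND.cvn_thm rcvb rcvf rcvc rram regc
theorem rlow : S_LOW := _root_.Pool.CND.low_thm rcvr rcvc rcvn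
theorem rngl : S_NGL := _root_.Pool.CND.ngl_thm
theorem rnge : S_NGE := _root_.Pool.CND.nge_thm rlow rupa rega regc rngl
theorem regz : S_EGZ := _root_.Pool.CND.egz_thm
theorem rptb : S_PTB := _root_.Pool.CND.ptb_thm rnge regc regz
theorem rcng : S_CNG := _root_.Pool.CND.cng_thm
theorem rqis : S_QIS := _root_.Pool.CND.qis_thm regc
theorem rngd : S_NGD := _root_.Pool.CND.ngd_thm
theorem rpta : S_PTA := _root_.Pool.CND.pta_thm rupa rngd
theorem rptc : S_PTC := _root_.Pool.CND.ptc_thm rpta rqis rcng rnge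
theorem rsls : S_SLS := _root_.Pool.CND.sls_thm
theorem rslx : S_SLX := _root_.Pool.CND.slx_thm
theorem rslv : S_SLV := _root_.Pool.CND.slv_thm rsls rvec rslx
theorem rsbp : S_SBP := _root_.Pool.CND.sbp_thm
theorem rtmi : S_TMI := _root_.Pool.CND.tmi_thm rexp rlon rinj
theorem rtmc : S_TMC := _root_.Pool.CND.tmc_thm rexp rlon rinj
theorem rupg : S_UPG := _root_.Pool.CND.upg_thm rwld rsub rumw rhbp rela rcon rtmi rtmc
theorem rslw : S_SLW := _root_.Pool.CND.slw_thm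
theorem rslu : S_SLU := _root_.Pool.CND.slu_thm rupg rslw
theorem rsrl : S_SRL := _root_.Pool.CND.srl_thm
theorem rslt : S_SLT := _root_.Pool.CND.slt_thm
theorem rslm : S_SLM := _root_.Pool.CND.slm_thm
theorem rsld : S_SLD := _root_.Pool.CND.sld_thm rslv rslt rslm
theorem rslg : S_SLG := _root_.Pool.CND.slg_thm
theorem rsle : S_SLE := _root_.Pool.CND.sle_thm rsrl rlsp rsbp rsls rsld rslg
theorem rsli : S_SLI := _root_.Pool.CND.sli_thm
theorem rslf : S_SLF := _root_.Pool.CND.slf_thm rvec rslx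
theorem rslb : S_SLB := _root_.Pool.CND.slb_thm rslf rram rlon rinj rtmo rlo2
theorem rsln : S_SLN := _root_.Pool.CND.sln_thm rslf rslb
theorem rslo : S_SLO := _root_.Pool.CND.slo_thm rsle rsli rsln
theorem rslr : S_SLR := _root_.Pool.CND.slr_thm rslo rslu rngl
theorem rgal : S_GAL := _root_.Pool.CND.gal_thm
theorem rpsw : S_PSW := _root_.Pool.CND.psw_thm rslw
theorem rpsu : S_PSU := _root_.Pool.CND.psu_thm rupg rpsw
theorem rpsa : S_PSA := _root_.Pool.CND.psa_thm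
theorem rpsb : S_PSB := _root_.Pool.CND.psb_thm rfxp rslf rlo2 rtmo rram rlon rinj
theorem rpso : S_PSO := _root_.Pool.CND.pso_thm rsle rpsa rpsb rslo
theorem rpsr : S_PSR := _root_.Pool.CND.psr_thm rpso rpsu rngl
theorem rdun : S_DUN := _root_.Pool.CND.dun_thm
theorem rdgr : S_DGR := _root_.Pool.CND.dgr_thm
theorem rpol : S_POL := _root_.Pool.CND.pol_thm
theorem rasr : S_ASR := _root_.Pool.CND.asr_thm
theorem rexi : S_EXI := _root_.Pool.CND.exi_thm
theorem rwap : S_WAP := _root_.Pool.CND.wap_thm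
theorem rrmx : S_RMX := _root_.Pool.CND.rmx_thm rwap
theorem rtrm : S_TRM := _root_.Pool.CND.trm_thm rrmx rtot rslx
theorem relh : S_ELH := _root_.Pool.CND.elh_thm
theorem rhbx : S_HBX := _root_.Pool.CND.hbx_thm rher rfxp rrst rart rumw rinj rlo2
theorem rcnv : S_CNV := _root_.Pool.CND.cnv_thm rram rumw
theorem rdco : S_DCO := _root_.Pool.CND.dco_thm rtrm rrmx rslx rtmo rram rumw relh rhbx rcmb rcnv
theorem rdlo : S_DLO := _root_.Pool.CND.dlo_thm rdgr rpol rasr rgal rexi rdun rdco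
theorem rdfi : S_DFI := _root_.Pool.CND.dfi_thm rdlo rupa rngl rpta
theorem rxga : S_XGA := _root_.Pool.CND.xga_thm
theorem rxap : S_XAP := _root_.Pool.CND.xap_thm
theorem rxun : S_XUN := _root_.Pool.CND.xun_thm rxap
theorem rxgr : S_XGR := _root_.Pool.CND.xgr_thm
theorem rxth : S_XTH := _root_.Pool.CND.xth_thm
theorem rxco : S_XCO := _root_.Pool.CND.xco_thm rxth
theorem rxt1 : S_XT1 := _root_.Pool.CND.xt1_thm
theorem rxt2 : S_XT2 := _root_.Pool.CND.xt2_thm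
theorem rxrd : S_XRD := _root_.Pool.CND.xrd_thm
theorem rxpo : S_XPO := _root_.Pool.CND.xpo_thm rxco rxap rxth rxt1 rxt2 rxrd
theorem rxdc : S_XDC := _root_.Pool.CND.xdc_thm rtrm rrmx rslx rtot rtmo rram rumw relh relg rhbx rcmb rcnv rxap
theorem rxlo : S_XLO := _root_.Pool.CND.xlo_thm rxgr rxpo rasr rxga rexi rxun rxdc rxap
theorem rxfi : S_XFI := _root_.Pool.CND.xfi_thm rxlo rupa rngl
theorem rxes : S_XES := _root_.Pool.CND.xes_thm
theorem rxef : S_XEF := _root_.Pool.CND.xef_thm rxfi rxes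
theorem rrsp : S_RSP := _root_.Pool.CND.rsp_thm
theorem re2i : S_E2I := _root_.Pool.CND.e2i_thm
theorem rpu3 : S_PU3 := _root_.Pool.CND.pu3_thm rrsp
theorem rpu1 : S_PU1 := _root_.Pool.CND.pu1_thm
theorem rpu2 : S_PU2 := _root_.Pool.CND.pu2_thm
theorem rpu4 : S_PU4 := _root_.Pool.CND.pu4_thm rvec rram rinj rlo2 rwpg rtmo
theorem rpul : S_PUL := _root_.Pool.CND.pul_thm rpu1 rpu2 rpu3 rpu4 rrmx rslx
theorem re2m : S_E2M := _root_.Pool.CND.e2m_thm regc regz rupa rlow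
theorem re2s : S_E2S := _root_.Pool.CND.e2s_thm rega regc regz re2m
theorem rs2c : S_S2C := _root_.Pool.CND.s2c_thm rcvr rcvf rcvb rcvc rram regc
theorem rpun : S_PUN := _root_.Pool.CND.pun_thm rpul rupa
theorem re2f : S_E2F := _root_.Pool.CND.e2f_thm re2m re2i re2s rs2c rpun rpta rcng rnge
theorem runx : S_UNX := _root_.Pool.CND.unx_thm
theorem runb : S_UNB := _root_.Pool.CND.unb_thm
theorem runf : S_UNF := _root_.Pool.CND.unf_thm rvec runx runb
theorem runk : S_UNK := _root_.Pool.CND.unk_thm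
theorem runr : S_UNR := _root_.Pool.CND.unr_thm
theorem runs : S_UNS := _root_.Pool.CND.uns_thm
theorem runt : S_UNT := _root_.Pool.CND.unt_thm
theorem runn : S_UNN := _root_.Pool.CND.unn_thm runf runb rram rlon rinj rtmo rlo2
theorem runv : S_UNV := _root_.Pool.CND.unv_thm runs runx rvec
theorem rund : S_UND := _root_.Pool.CND.und_thm runr runv runt rslm
theorem runc : S_UNC := _root_.Pool.CND.unc_thm
theorem runl : S_UNL := _root_.Pool.CND.unl_thm
theorem rung : S_UNG := _root_.Pool.CND.ung_thm runc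
theorem rune : S_UNE := _root_.Pool.CND.une_thm runl rlsp rsbp runr runs rund rung
theorem runo : S_UNO := _root_.Pool.CND.uno_thm rune runk runn
theorem runp : S_UNP := _root_.Pool.CND.unp_thm runo rpun
theorem rabc : S_ABC := _root_.Pool.CND.abc_thm
theorem rhcn : S_HCN := _root_.Pool.CND.hcn_thm
theorem rhxs : S_HXS := _root_.Pool.CND.hxs_thm
theorem rhtr : S_HTR := _root_.Pool.CND.htr_thm rtot rvec
theorem rhsd : S_HSD := _root_.Pool.CND.hsd_thm
theorem rhst : S_HST := _root_.Pool.CND.hst_thm rhcn rhxs rhtr rhsd rlon rinj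
theorem rhcy : S_HCY := _root_.Pool.CND.hcy_thm rhst rfxp rrst rart rher rlon rinj
theorem ruqt : S_UQT := _root_.Pool.CND.uqt_thm
theorem rhab : S_HAB := _root_.Pool.CND.hab_thm rabc rfxp rrst rart rher rhcy ruqt rhsd rlon rinj rumw rwld rsub
theorem rsyb : S_SYB := _root_.Pool.CND.syb_thm
theorem rinb : S_INB := _root_.Pool.CND.inb_thm rhab rmax rcmb rhbp rumw
theorem rupb : S_UPB := _root_.Pool.CND.upb_thm rwld rumw rsyb rinb rcon
theorem rexs : S_EXS := _root_.Pool.CND.exs_thm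
theorem rtrv : S_TRV := _root_.Pool.CND.trv_thm rwap
theorem rqu1 : S_QU1 := _root_.Pool.CND.qu1_thm rexs rtrv
theorem rqu2 : S_QU2 := _root_.Pool.CND.qu2_thm rrsp rtot rrmx rlo2 rinj rtrv rram rsub rwld rart rumw rcon rcnv
theorem rquo : S_QUO := _root_.Pool.CND.quo_thm rqu1 rqu2
theorem rall : S_ALL := _root_.Pool.CND.all_thm rpun
theorem rnqd : S_NQD := _root_.Pool.CND.nqd_thm rquo rall rngd rupa
theorem rvb1 : S_VB1 := _root_.Pool.CND.vb1_thm runb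
theorem rvb2 : S_VB2 := _root_.Pool.CND.vb2_thm runb
theorem rvgw : S_VGW := _root_.Pool.CND.vgw_thm rvb1 rvb2
theorem ryth : S_YTH := _root_.Pool.CND.yth_thm rexp rlon
theorem rycy : S_YCY := _root_.Pool.CND.ycy_thm2
theorem rylc : S_YLC := _root_.Pool.CND.ylc_thm rexp rlon rram rinj
theorem ryta : S_YTA := _root_.Pool.CND.yta_thm rylc rlon rram rinj rumw
theorem rycc : S_YCC := _root_.Pool.CND.ycc_thm
theorem rycr : S_YCR := _root_.Pool.CND.ycr_thm rycc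
theorem rypm : S_YPM := _root_.Pool.CND.ypm_thm
theorem ryos : S_YOS := _root_.Pool.CND.yos_thm rypm
theorem rydv : S_YDV := _root_.Pool.CND.ydv_thm rylc ryos
theorem rylm : S_YLM := _root_.Pool.CND.ylm_thm
theorem ryld : S_YLD := _root_.Pool.CND.yld_thm
theorem rylo : S_YLO := _root_.Pool.CND.ylo_thm rwld rumw rhbp rcon rind rram ryth rycy ryta rycc rycr rydv rylm ryld
theorem rtam : S_TAM := _root_.Pool.CND.tam_thm rylo rylm rcon rinb
theorem rvzc : S_VZC := _root_.Pool.CND.vzc_thm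
theorem rvsu : S_VSU := _root_.Pool.CND.vsu_thm rtam rvgw rvzc rngd runp
theorem rvgp : S_VGP := _root_.Pool.CND.vgp_thm rvgw rvzc
theorem rvpu : S_VPU := _root_.Pool.CND.vpu_thm rtam rvgp rvzc rngd rnqd runp
theorem rzra : S_ZRA := _root_.Pool.CND.zra_thm
theorem rzrb : S_ZRB := _root_.Pool.CND.zrb_thm
theorem rcun : S_CUN := _root_.Pool.CND.cun_thm rrsp
theorem rtrs : S_TRS := _root_.Pool.CND.trs_thm rexi
theorem rcco : S_CCO := _root_.Pool.CND.cco_thm rtrs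
theorem rcir : S_CIR := _root_.Pool.CND.cir_thm
theorem rcga : S_CGA := _root_.Pool.CND.cga_thm
theorem rces : S_CES := _root_.Pool.CND.ces_thm rcco rcir rcga rcun
theorem rzgd : S_ZGD := _root_.Pool.CND.zgd_thm
theorem rzff : S_ZFF := _root_.Pool.CND.zff_thm
theorem rzhd : S_ZHD := _root_.Pool.CND.zhd_thm rzff
theorem rpe0 : S_PE0 := _root_.Pool.CND.pe0_thm rxga rxun
theorem rpex : S_PEX := _root_.Pool.CND.pex_thm rpe0 rces
theorem rzhh : S_ZHH := _root_.Pool.CND.zhh_thm rxap rzra rzrb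
theorem rzcv : S_ZCV := _root_.Pool.CND.zcv_thm rasr rxga rexi rxun rxdc
theorem rzbd : S_ZBD := _root_.Pool.CND.zbd_thm
theorem rcjc : S_CJC := _root_.Pool.CND.cjc_thm rtrv
theorem rcuq : S_CUQ := _root_.Pool.CND.cuq_thm
theorem rcma : S_CMA := _root_.Pool.CND.cma_thm
theorem rcmu : S_CMU := _root_.Pool.CND.cmu_thm rrsp
theorem ruqm : S_UQM := _root_.Pool.CND.uqm_thm
theorem rqcc : S_QCC := _root_.Pool.CND.qcc_thm rrsp rtot rrmx rfxp rrst rart rher rtrv rwld rram rumw rinj rlon ruqm ruqt rcon rcnv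
theorem rtwi : S_TWI := _root_.Pool.CND.twi_thm rcma rcmu rqcc rcjc rcuq rexi rrsp rtrv rqu1 rcnv rwld
theorem rzmn : S_ZMN := _root_.Pool.CND.zmn_thm rpex rzgd rzhh rzcv rzbd rcjc rcuq rtwi rpun
theorem rzhf : S_ZHF := _root_.Pool.CND.zhf_thm rzhd rzmn
theorem rhac : S_HAC := _root_.Pool.CND.hac_thm rfxp rrst rart rher ruqt rhab rumw rram rtot
theorem rinc : S_INC := _root_.Pool.CND.inc_thm rmax rcmb rhbp rumw rhac
theorem rupc : S_UPC := _root_.Pool.CND.upc_thm rwld rumw rinc rcon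
theorem rzub : S_ZUB := _root_.Pool.CND.zub_thm rupc rngd rpta
theorem ryt1 : S_YT1 := _root_.Pool.CND.yt1_thm rylo
theorem rypp : S_YPP := _root_.Pool.CND.ypp_thm
theorem ryt2 : S_YT2 := _root_.Pool.CND.yt2_thm ryt1 rsyg rypp rngd
theorem rdvw : S_DVW := _root_.Pool.CND.dvw_thm rupc ryt1 rngd
theorem rtax : S_TAX := _root_.Pool.CND.tax_thm ryt1
theorem rdiv : S_DIV := _root_.Pool.CND.div_thm rupc rtax rngd
theorem rysr : S_YSR := _root_.Pool.CND.ysr_thm rypm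
theorem ryt3 : S_YT3 := _root_.Pool.CND.yt3_thm ryt2 rysr
theorem ryt4 : S_YT4 := _root_.Pool.CND.yt4_thm rylo rpun rngd
theorem rfun : S_FUN := _root_.Pool.CND.fun_thm rrmx
theorem rtwc : S_TWC := _root_.Pool.CND.twc_thm rcga rcun
theorem rfrc : S_FRC := _root_.Pool.CND.frc_thm
theorem rqcg : S_QCG := _root_.Pool.CND.qcg_thm rrsp rtot rrmx rfxp rrst rart rher rtrv rwld rtmo rram rumw rinj rlon ruqm ruqt rcon rcnv rsub
theorem rder : S_DER := _root_.Pool.CND.der_thm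
theorem rlex : S_LEX := _root_.Pool.CND.lex_thm
theorem rdls : S_DLS := _root_.Pool.CND.dls_thm
theorem rdes : S_DES := _root_.Pool.CND.des_thm rlex rdls
theorem rinf : S_INF := _root_.Pool.CND.inf_thm rrmx rtot
theorem rreg : S_REG := _root_.Pool.CND.reg_thm rexi
theorem rtac : S_TAC := _root_.Pool.CND.tac_thm rder rdes rfun rinf rreg rfrc rtrv rwld
theorem rncl : S_NCL := _root_.Pool.CND.ncl_thm rqu1 rtrv rwld rtac rrsp
theorem rom2 : S_OM2 := _root_.Pool.CND.om2_thm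
theorem rpz5 : S_PZ5 := _root_.Pool.CND.pz5_thm
theorem ralt : S_ALT := _root_.Pool.CND.alt_thm
theorem rtwg : S_TWG := _root_.Pool.CND.twg_thm
theorem rasg : S_ASG := _root_.Pool.CND.asg_thm rtrs rexi rxrd
theorem rptr : S_PTR := _root_.Pool.CND.ptr_thm rncl rmax rsub
theorem rasd : S_ASD := _root_.Pool.CND.asd_thm rptr rhbx ruqm ruqt rcon rumw rwld rram rinf
theorem rtwb : S_TWB := _root_.Pool.CND.twb_thm rptr rinf rasd rher rfxp rrst rlon rram rcon rumw rxrd rhbx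
theorem rtrb : S_TRB := _root_.Pool.CND.trb_thm rlon rinj
theorem rcy2 : S_CY2 := _root_.Pool.CND.cy2_thm rtrb rfxp rrst rher rlo2 rlon rinj
theorem rcyu : S_CYU := _root_.Pool.CND.cyu_thm rcy2 rqu1 rqcc rptr rinf rhbx rumw rcnv
theorem rpz6 : S_PZ6 := _root_.Pool.CND.pz6_thm rpz5 ralt rtwg rasg rtwc rtwb rcyu rqcc rcjc rcuq rcnv rexi rasd rptr rwld
theorem rvlf : S_VLF := _root_.Pool.CND.vlf_thm rtot rrmx rfxp rrst rart rher rtrv rwld rram rumw rinj rlon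
theorem rpz7 : S_PZ7 := _root_.Pool.CND.pz7_thm rpz6 rhac ralt rtwg rasg rtwc rtwb rvlf rqcc rcjc rcuq rcon rptr rcnv rexi rwld rram rtrv
theorem rom1 : S_OM1 := _root_.Pool.CND.om1_thm
theorem rom3 : S_OM3 := _root_.Pool.CND.om3_thm rom1 rom2 rzhf
theorem rpze : S_PZE := _root_.Pool.CND.pze_thm rpz7 rom3 rngd
theorem rpub : S_PUB := _root_.Pool.CND.pub_thm rpu1 rpu2 rpu3 rpu4 rlo2 rram rinj rrmx rslx
theorem rlbq : S_LBQ := _root_.Pool.CND.lbq_thm rinf rlon rtrv rwld rsub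
theorem rprl : S_PRL := _root_.Pool.CND.prl_thm rpub rcma rcmu rqu1 rqcg rcjc rcuq rtac rlbq rcnv rexi rwld rsub
theorem rpru : S_PRU := _root_.Pool.CND.pru_thm rqu1 rqcg
theorem rprd : S_PRD := _root_.Pool.CND.prd_thm rprl rpru rall rupa rngd rcng
theorem rgdv : S_GDV := _root_.Pool.CND.gdv_thm rylo rncl rinc rcon rngd rram
theorem rzuc : S_ZUC := _root_.Pool.CND.zuc_thm rgdv
theorem rzzb : S_ZZB := _root_.Pool.CND.zzb_thm
theorem rzzc : S_ZZC := _root_.Pool.CND.zzc_thm rzzb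
theorem rzu1 : S_ZU1 := _root_.Pool.CND.zu1_thm rzzb rzzc
theorem riso : S_ISO := _root_.Pool.CND.iso_thm
theorem rzu2 : S_ZU2 := _root_.Pool.CND.zu2_thm riso rzzb
theorem rzu3 : S_ZU3 := _root_.Pool.CND.zu3_thm rzzb
theorem rzu4 : S_ZU4 := _root_.Pool.CND.zu4_thm rgdv rzu1 rzu2 rzu3 rzzb
theorem rzzl : S_ZZL := _root_.Pool.CND.zzl_thm
theorem rzzx : S_ZZX := _root_.Pool.CND.zzx_thm
theorem rzza : S_ZZA := _root_.Pool.CND.zza_thm
theorem rzzg : S_ZZG := _root_.Pool.CND.zzg_thm rzzc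
theorem rzzv : S_ZZV := _root_.Pool.CND.zzv_thm rzza rzzx
theorem rzzr : S_ZZR := _root_.Pool.CND.zzr_thm
theorem rzzt : S_ZZT := _root_.Pool.CND.zzt_thm
theorem rzze : S_ZZE := _root_.Pool.CND.zze_thm rzzl rlsp rsbp rzzr rzzv rzzt rzzg
theorem rzzk : S_ZZK := _root_.Pool.CND.zzk_thm
theorem rzzf : S_ZZF := _root_.Pool.CND.zzf_thm rzzk rinf rzzb
theorem rzzn : S_ZZN := _root_.Pool.CND.zzn_thm rzzf rzzb rram rlon rinj rtmo rlo2
theorem rzzp : S_ZZP := _root_.Pool.CND.zzp_thm rzze rzzk rzzn rpun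
theorem rzzz : S_ZZZ := _root_.Pool.CND.zzz_thm rzzp rzu4
theorem rbas : S_BAS := _root_.Pool.CND.bas_thm rptr rinf rumw rsub
theorem rchy : S_CHY := _root_.Pool.CND.chy_thm rbas rrmx rhbx
theorem rwca : S_WCA := _root_.Pool.CND.wca_thm
theorem ryqq : S_YQQ := _root_.Pool.CND.yqq_thm rwca
theorem rrdg : S_RDG := _root_.Pool.CND.rdg_thm rbas rrmx rtot
theorem ryml : S_YML := _root_.Pool.CND.yml_thm ryqq rrdg rwca
theorem rwco : S_WCO := _root_.Pool.CND.wco_thm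
theorem rdkk : S_DKK := _root_.Pool.CND.dkk_thm
theorem rqsm : S_QSM := _root_.Pool.CND.qsm_thm rbas rqu1 rfxp rrst rher rart
theorem rdva : S_DVA := _root_.Pool.CND.dva_thm rbas rdkk rqsm rlon
theorem rdvb : S_DVB := _root_.Pool.CND.dvb_thm rbas rtot rvec
theorem rdvv : S_DVV := _root_.Pool.CND.dvv_thm rbas rdkk rdva rdvb
theorem rlbz : S_LBZ := _root_.Pool.CND.lbz_thm rchy rdvv
theorem rme1 : S_ME1 := _root_.Pool.CND.me1_thm rbas rwco rwca rdvv rlbz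
theorem rlpo : S_LPO := _root_.Pool.CND.lpo_thm rbas rlon rinj
theorem rpcg : S_PCG := _root_.Pool.CND.pcg_thm
theorem rme2 : S_ME2 := _root_.Pool.CND.me2_thm rbas rwca rdvv
theorem rpoi : S_POI := _root_.Pool.CND.poi_thm
theorem rdru : S_DRU := _root_.Pool.CND.dru_thm
theorem rdrp : S_DRP := _root_.Pool.CND.drp_thm rdru
theorem rdrv : S_DRV := _root_.Pool.CND.drv_thm rdru
theorem robs : S_OBS := _root_.Pool.CND.obs_thm
theorem ryic : S_YIC := _root_.Pool.CND.yic_thm rbas rqsm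
theorem ryis : S_YIS := _root_.Pool.CND.yis_thm robs rchy rdvv ryic rbas
theorem rtht : S_THT := _root_.Pool.CND.tht_thm rbas rqsm rrmx rlo2 rinj
theorem ravg : S_AVG := _root_.Pool.CND.avg_thm rtht rbas
theorem rdrh : S_DRH := _root_.Pool.CND.drh_thm
theorem rme3 : S_ME3 := _root_.Pool.CND.me3_thm ravg rdrh rdrp rdvv rdkk rbas
theorem rmla : S_MLA := _root_.Pool.CND.mla_thm rdrv ryis ryml rme1 rme2 rme3
theorem rhi1 : S_HI1 := _root_.Pool.CND.hi1_thm rmla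
theorem rpcq : S_PCQ := _root_.Pool.CND.pcq_thm
theorem rhin : S_HIN := _root_.Pool.CND.hin_thm rhi1 rqsm rlpo rpcg rpcq rbas
theorem ritg : S_ITG := _root_.Pool.CND.itg_thm rchy rdvv ravg rdrv rdkk rbas
theorem rpcz : S_PCZ := _root_.Pool.CND.pcz_thm rhin ritg rqsm rlpo rpcq rcon rbas
theorem rpcn : S_PCN := _root_.Pool.CND.pcn_thm rpcz rom3 rngd
theorem rvas : S_VAS := _root_.Pool.CND.vas_thm rumw
theorem rvsm : S_VSM := _root_.Pool.CND.vsm_thm rvas rfxp rrst rher rart rram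
theorem rvht : S_VHT := _root_.Pool.CND.vht_thm rvas rvsm rrmx rlo2 rinj
theorem rvvg : S_VVG := _root_.Pool.CND.vvg_thm rvht rvas
theorem rvhy : S_VHY := _root_.Pool.CND.vhy_thm rvas rrmx rhbx
theorem rvva : S_VVA := _root_.Pool.CND.vva_thm rvas rfxp rrst rher rart rinj rtot
theorem rvvb : S_VVB := _root_.Pool.CND.vvb_thm rvas rtot rvec
theorem rvvv : S_VVV := _root_.Pool.CND.vvv_thm rvas rvva rvvb rtot rvec
theorem rvic : S_VIC := _root_.Pool.CND.vic_thm rvas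
theorem rvis : S_VIS := _root_.Pool.CND.vis_thm robs rvhy rvvv rvic rvas
theorem rkep : S_KEP := _root_.Pool.CND.kep_thm rdru
theorem rpee : S_PEE := _root_.Pool.CND.pee_thm rkep rdrv rdru rrmx rtot rvec rwld
theorem rve3 : S_VE3 := _root_.Pool.CND.ve3_thm rvvg rdrh rvvv rvas
theorem rvdg : S_VDG := _root_.Pool.CND.vdg_thm rvas rrmx rtot
theorem rvtg : S_VTG := _root_.Pool.CND.vtg_thm rvhy rvvv rvvg rvas rtot
theorem rve2 : S_VE2 := _root_.Pool.CND.ve2_thm rvas rwca rvvv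
theorem rvbz : S_VBZ := _root_.Pool.CND.vbz_thm rvhy rvvv
theorem rvqq : S_VQQ := _root_.Pool.CND.vqq_thm rwca
theorem rvml : S_VML := _root_.Pool.CND.vml_thm rvqq rvdg rwca
theorem rve1 : S_VE1 := _root_.Pool.CND.ve1_thm rvas rwco rwca rvvv rvbz
theorem rvla : S_VLA := _root_.Pool.CND.vla_thm rvis rvml rve1 rve2 rve3
theorem rvi1 : S_VI1 := _root_.Pool.CND.vi1_thm rvla
theorem rvpo : S_VPO := _root_.Pool.CND.vpo_thm rvas rlon rinj
theorem rvin : S_VIN := _root_.Pool.CND.vin_thm rvi1 rvsm rvpo rpcg rpcq rvas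
theorem rvcz : S_VCZ := _root_.Pool.CND.vcz_thm rvin rvtg rvsm rvpo rpcq rvas
theorem rhap : S_HAP := _root_.Pool.CND.hap_thm rhac rpee rvsm rvcz ruqt rumw
theorem rinp : S_INP := _root_.Pool.CND.inp_thm rhap rmax rcmb rhbp rumw
theorem rgdw : S_GDW := _root_.Pool.CND.gdw_thm rylo rncl rinp rcon rngd rram
theorem rzuw : S_ZUW := _root_.Pool.CND.zuw_thm rgdw
theorem rapa : S_APA := _root_.Pool.CND.apa_thm
theorem rapb : S_APB := _root_.Pool.CND.apb_thm rapa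
theorem ralp : S_ALP := _root_.Pool.CND.alp_thm rapb
theorem rapd : S_APD := _root_.Pool.CND.apd_thm ralp rzuw
theorem rape : S_APE := _root_.Pool.CND.ape_thm
theorem rpmx : S_PMX := _root_.Pool.CND.pmx_thm rapd rape rzhf rpcn
theorem rpmz : S_PMZ := _root_.Pool.CND.pmz_thm rpmx
theorem rwp4 : S_WP4 := _root_.Pool.CND.wp4_thm rexi rrsp rtrv
theorem rwlx : S_WLX := _root_.Pool.CND.wlx_thm rwap rfrc
theorem rnbx : S_NBX := _root_.Pool.CND.nbx_thm rfrc
theorem rfnl : S_FNL := _root_.Pool.CND.fnl_thm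
theorem rfna : S_FNA := _root_.Pool.CND.fna_thm rreg rlex rfnl
theorem rwly : S_WLY := _root_.Pool.CND.wly_thm rwlx rnbx rfna
theorem rwgx : S_WGX := _root_.Pool.CND.wgx_thm
theorem rwun : S_WUN := _root_.Pool.CND.wun_thm rrsp
theorem rwp1 : S_WP1 := _root_.Pool.CND.wp1_thm rrmx rtot
theorem rwuv : S_WUV := _root_.Pool.CND.wuv_thm rwp1 rtot rlon rhbx ruqm relg rcmb rfxp rrst rher rumw rwld rhbp rtmo
theorem rwp2 : S_WP2 := _root_.Pool.CND.wp2_thm rwp1 rfxp rrst rher rart rlon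
theorem rwp3 : S_WP3 := _root_.Pool.CND.wp3_thm rtrv rwld
theorem rwcc : S_WCC := _root_.Pool.CND.wcc_thm rwp2 rwp3 rcnv rumw rwld
theorem rwrl : S_WRL := _root_.Pool.CND.wrl_thm rwly rwgx rwun rwp4 rwuv rwcc rall
theorem rwqu : S_WQU := _root_.Pool.CND.wqu_thm rqu1 rrsp
theorem rwru : S_WRU := _root_.Pool.CND.wru_thm rwp2 rwp3 rcon rela rumw rhbp rwld
theorem rwub : S_WUB := _root_.Pool.CND.wub_thm rwqu rwru rngd rsub
theorem rwre : S_WRE := _root_.Pool.CND.wre_thm rwrl rwub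
theorem rwrp : S_WRP := _root_.Pool.CND.wrp_thm rwre rptr rpex rexi
theorem rwrt : S_WRT := _root_.Pool.CND.wrt_thm rwre rwld rncl rvb1 runb rune runk runf
theorem rwrs : S_WRS := _root_.Pool.CND.wrs_thm rwre rwld rsub rncl rsle rsli rslf
theorem rxrr : S_XRR := _root_.Pool.CND.xrr_thm rfrc rinf rreg rlex rtrv
theorem rxnu : S_XNU := _root_.Pool.CND.xnu_thm rnbx
theorem rxly : S_XLY := _root_.Pool.CND.xly_thm rxrr rxnu rfna
theorem rxgx : S_XGX := _root_.Pool.CND.xgx_thm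
theorem rxux : S_XUX := _root_.Pool.CND.xux_thm rrsp
theorem rxd1 : S_XD1 := _root_.Pool.CND.xd1_thm rfxp rrst rart rher rirr rlo2 rsam rtmo rinj
theorem rxd2 : S_XD2 := _root_.Pool.CND.xd2_thm rumw rlon rinj
theorem rxcc : S_XCC := _root_.Pool.CND.xcc_thm rwp1 rwp2 rwp3 rxd1 rxd2 rtot rlon rcnv
theorem rxrl : S_XRL := _root_.Pool.CND.xrl_thm rxly rxgx rxux rwp4 rxcc rall
theorem rxpq : S_XPQ := _root_.Pool.CND.xpq_thm rwp2 rwp3 rcnv rumw rtmo
theorem rxdi : S_XDI := _root_.Pool.CND.xdi_thm rmax rhbp rydv ryth rycy rwld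
theorem rxd4 : S_XD4 := _root_.Pool.CND.xd4_thm rxd1 rxd2 rxdi rcon rram rinj
theorem rxpu : S_XPU := _root_.Pool.CND.xpu_thm rwqu rxpq rall rxd4 rwp3 rngd rsub rcon rwld
theorem rxnh : S_XNH := _root_.Pool.CND.xnh_thm rcon rirr rngd rwld rumw rinj
theorem rxpw : S_XPW := _root_.Pool.CND.xpw_thm rxrl rxpu rxnh
theorem rxpp : S_XPP := _root_.Pool.CND.xpp_thm rxpw rptr rpex rexi rgdv
theorem rprf : S_PRF := _root_.Pool.CND.prf_thm rprl rprd rcng rtac rcnv rexi rsub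
theorem rxsy : S_XSY := _root_.Pool.CND.xsy_thm rxpp
theorem rhc1 : S_HC1 := _root_.Pool.CND.hc1_thm rsle rsli rqu1
theorem rhc3 : S_HC3 := _root_.Pool.CND.hc3_thm rzze rzzk
theorem rut4 : S_UT4 := _root_.Pool.CND.ut4_thm rzhf rzuw
theorem rut3 : S_UT3 := _root_.Pool.CND.ut3_thm rzhf rzuw
theorem ruts : S_UTS := _root_.Pool.CND.uts_thm rut3 rut4 rcng
theorem rhc2 : S_HC2 := _root_.Pool.CND.hc2_thm rune runk rqu1
theorem rrkp : S_RKP := _root_.Pool.CND.rkp_thm rprf rhc1 rhc2 rhc3 rpsr rslr rvsu rvpu rnqd rvzc rzzz rcng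
theorem rpmy : S_PMY := _root_.Pool.CND.pmy_thm rapd rzhf

end Pool.CND
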