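import Pool.Agent.H1.CND.SAM
import Pool.Agent.H1.CNH.HCY
import Pool.Agent.H1.CNP.EXI
import Pool.Agent.H1.CNY.YLM
import Pool.Agent.H14.CND.TOT
import Pool.Agent.H14.CNH.UQT
import Pool.Agent.H14.CNS.REG
import Pool.Agent.H14.CNY.YCR
import Pool.Agent.H14.CTP.INT
import Pool.Agent.H14.CTR.SQG
import Pool.Agent.H17.CND.LON
import Pool.Agent.H17.CND.ZPW
import Pool.Agent.H17.CNH.HCN
import Pool.Agent.H17.CNH.HXS
import Pool.Agent.H17.CNL.VE2
import Pool.Agent.H18.CND.HBP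
import Pool.Agent.H18.CNH.HTR
import Pool.Agent.H18.CNS.LEX
import Pool.Agent.H18.CNY.YPM
import Pool.Agent.H18.CNY.YTH
import Pool.Agent.H2.CNL.VHT
import Pool.Agent.H22.CND.ELA
import Pool.Agent.H22.CNL.VPO
import Pool.Agent.H22.CTN.DV0
import Pool.Agent.H23.CNL.VVG
import Pool.Agent.H23.CNS.FUN
import Pool.Agent.H25.CNL.VIN
import Pool.Agent.H26.CTR.SQ1
import Pool.Agent.H27.CTR.SQ2
import Pool.Agent.H3.CND.ART
import Pool.Agent.H34.CND.LO2
import Pool.Agent.H34.CNL.VAS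
import Pool.Agent.H34.CNL.VVA
import Pool.Agent.H36.CND.CMB
import Pool.Agent.H36.CND.NGD
import Pool.Agent.H36.CND.WLD
import Pool.Agent.H36.CNS.DLS
import Pool.Agent.H36.CTP.DF2
import Pool.Agent.H36.CTQ.PG1
import Pool.Agent.H37.CTR.SQP
import Pool.Agent.H40.CND.TMO
import Pool.Agent.H40.CNL.VE3
import Pool.Agent.H40.CNQ.TRV
import Pool.Agent.H42.CND.ELG
import Pool.Agent.H42.CNH.ABC
import Pool.Agent.H44.CND.MAX
import Pool.Agent.H44.CNS.TAC
import Pool.Agent.H45.CNY.HAC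
import Pool.Agent.H45.CNY.YOS
import Pool.Agent.H46.CNK.WCA
import Pool.Agent.H46.CNQ.QU1
import Pool.Agent.H46.CNY.YTA
import Pool.Agent.H47.CNK.PCQ
import Pool.Agent.H49.CNS.NCL
import Pool.Agent.H50.CNL.VIS
import Pool.Agent.H50.CNQ.EXS
import Pool.Agent.H50.CNT.RSP
import Pool.Agent.H50.CTP.OD2
import Pool.Agent.H51.CNL.VIC
import Pool.Agent.H51.CNY.YCC
import Pool.Agent.H52.CND.VEC
import Pool.Agent.H52.CND.WPG
import Pool.Agent.H52.CNK.OBS
import Pool.Agent.H52.CNS.INF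
import Pool.Agent.H53.CNL.VBZ
import Pool.Agent.H54.CND.CONC
import Pool.Agent.H54.CTP.GDX
import Pool.Agent.H55.CNL.INP
import Pool.Agent.H55.CTQ.PG2
import Pool.Agent.H56.CNL.HAP
import Pool.Agent.H62.CND.IRR
import Pool.Agent.H62.CNH.HAB
import Pool.Agent.H62.CNL.PEE
import Pool.Agent.H63.CND.IND
import Pool.Agent.H64.CND.INJ
import Pool.Agent.H65.CNL.VDG
import Pool.Agent.H65.CNS.DER
import Pool.Agent.H67.CND.RAM
import Pool.Agent.H67.CNH.HST
import Pool.Agent.H67.CNL.VVB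
import Pool.Agent.H67.CNS.DES
import Pool.Agent.H70.CNL.VHY
import Pool.Agent.H70.CTN.DF1
import Pool.Agent.H71.CND.UMW
import Pool.Agent.H71.CNL.VQQ
import Pool.Agent.H71.CNY.YDV
import Pool.Agent.H72.CNL.KEP
import Pool.Agent.H72.CNS.FRC
import Pool.Agent.H73.CNP.HBX
import Pool.Agent.H74.CNL.VLA
import Pool.Agent.H74.CNY.YLC
import Pool.Agent.H74.CNY.YLD
import Pool.Agent.H76.CNK.DRU
import Pool.Agent.H78.CND.RST
import Pool.Agent.H78.CNP.RMX
import Pool.Agent.H78.CNP.WAP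
import Pool.Agent.H80.CNK.DRH
import Pool.Agent.H80.CNL.VSM
import Pool.Agent.H81.CNK.PCG
import Pool.Agent.H86.CNK.WCO
import Pool.Agent.H86.CNL.VCZ
import Pool.Agent.H86.CNL.VML
import Pool.Agent.H86.CTQ.PGN
import Pool.Agent.H88.CND.EXP
import Pool.Agent.H88.CND.FXP
import Pool.Agent.H88.CNH.HSD
import Pool.Agent.H89.CNK.DRV
import Pool.Agent.H90.CNY.YCY
import Pool.Agent.H91.CNL.VVV
import Pool.Agent.H93.CND.HER
import Pool.Agent.H93.CNL.VE1
import Pool.Agent.H93.CNL.VI1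
import Pool.Agent.H99.CND.SUB
import Pool.Agent.H99.CNL.VTG
import Pool.Agent.H99.CNY.YLO

/-!
# Denominators of conductors: the rows used, closed
-/

set_option autoImplicit false

namespace Pool.CND.CGdx

open Pool.CND

theorem rsub : S_SUB := _root_.Pool.CND.sub_thm
theorem rexp : S_EXP := _root_.Pool.CND.exp_thm
theorem rzpw : S_ZPW := _root_.Pool.CND.zpw_thm
theorem rlon : S_LON := _root_.Pool.CND.lon_thm rexp rzpw
theorem rwpg : S_WPG := _root_.Pool.CND.wpg_thm rlon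
theorem rtmo : S_TMO := _root_.Pool.CND.tmo_thm rexp
theorem rwld : S_WLD := _root_.Pool.CND.wld_thm rsub rwpg rtmo
theorem rinj : S_INJ := _root_.Pool.CND.inj_thm rlon
theorem rram : S_RAM := _root_.Pool.CND.ram_thm rlon rinj
theorem rumw : S_UMW := _root_.Pool.CND.umw_thm rram rlon rinj
theorem rtot : S_TOT := _root_.Pool.CND.tot_thm
theorem rfxp : S_FXP := _root_.Pool.CND.fxp_thm rtot
theorem rrst : S_RST := _root_.Pool.CND.rst_thm
theorem rart : S_ART := _root_.Pool.CND.art_thm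
theorem rher : S_HER := _root_.Pool.CND.her_thm rlon rinj
theorem rsam : S_SAM := _root_.Pool.CND.sam_thm rlon rinj
theorem rlo2 : S_LO2 := _root_.Pool.CND.lo2_thm rexp rzpw rlon
theorem rirr : S_IRR := _root_.Pool.CND.irr_thm rlo2
theorem rhbp : S_HBP := _root_.Pool.CND.hbp_thm rfxp rrst rart rher rsam rirr rumw rinj
theorem rcon : S_CON := _root_.Pool.CND.con_thm rram
theorem rmax : S_MAX := _root_.Pool.CND.max_thm
theorem rcmb : S_CMB := _root_.Pool.CND.cmb_thm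
theorem relg : S_ELG := _root_.Pool.CND.elg_thm
theorem rela : S_ELA := _root_.Pool.CND.ela_thm relg rcmb
theorem rind : S_IND := _root_.Pool.CND.ind_thm rmax rcmb rela
theorem ryth : S_YTH := _root_.Pool.CND.yth_thm rexp rlon
theorem rycy : S_YCY := _root_.Pool.CND.ycy_thm2
theorem rylc : S_YLC := _root_.Pool.CND.ylc_thm rexp rlon rram rinj
theorem ryta : S_YTA := _root_.Pool.CND.yta_thm rylc rlon rram rinj rumw
theorem rycc : S_YCC := _root_.Pool.CND.ycc_thm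
theorem rycr : S_YCR := _root_.Pool.CND.ycr_thm rycc
theorem rypm : S_YPM := _root_.Pool.CND.ypm_thm
theorem ryos : S_YOS := _root_.Pool.CND.yos_thm rypm
theorem rydv : S_YDV := _root_.Pool.CND.ydv_thm rylc ryos
theorem rylm : S_YLM := _root_.Pool.CND.ylm_thm
theorem ryld : S_YLD := _root_.Pool.CND.yld_thm
theorem rylo : S_YLO := _root_.Pool.CND.ylo_thm rwld rumw rhbp rcon rind rram ryth rycy ryta rycc rycr rydv rylm ryld
theorem rexs : S_EXS := _root_.Pool.CND.exs_thm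
theorem rwap : S_WAP := _root_.Pool.CND.wap_thm
theorem rtrv : S_TRV := _root_.Pool.CND.trv_thm rwap
theorem rqu1 : S_QU1 := _root_.Pool.CND.qu1_thm rexs rtrv
theorem rder : S_DER := _root_.Pool.CND.der_thm
theorem rlex : S_LEX := _root_.Pool.CND.lex_thm
theorem rdls : S_DLS := _root_.Pool.CND.dls_thm
theorem rdes : S_DES := _root_.Pool.CND.des_thm rlex rdls
theorem rrmx : S_RMX := _root_.Pool.CND.rmx_thm rwap
theorem rfun : S_FUN := _root_.Pool.CND.fun_thm rrmx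
theorem rinf : S_INF := _root_.Pool.CND.inf_thm rrmx rtot
theorem rexi : S_EXI := _root_.Pool.CND.exi_thm
theorem rreg : S_REG := _root_.Pool.CND.reg_thm rexi
theorem rfrc : S_FRC := _root_.Pool.CND.frc_thm
theorem rtac : S_TAC := _root_.Pool.CND.tac_thm rder rdes rfun rinf rreg rfrc rtrv rwld
theorem rrsp : S_RSP := _root_.Pool.CND.rsp_thm
theorem rncl : S_NCL := _root_.Pool.CND.ncl_thm rqu1 rtrv rwld rtac rrsp
theorem ruqt : S_UQT := _root_.Pool.CND.uqt_thm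
theorem rabc : S_ABC := _root_.Pool.CND.abc_thm
theorem rhcn : S_HCN := _root_.Pool.CND.hcn_thm
theorem rhxs : S_HXS := _root_.Pool.CND.hxs_thm
theorem rvec : S_VEC := _root_.Pool.CND.vec_thm
theorem rhtr : S_HTR := _root_.Pool.CND.htr_thm rtot rvec
theorem rhsd : S_HSD := _root_.Pool.CND.hsd_thm
theorem rhst : S_HST := _root_.Pool.CND.hst_thm rhcn rhxs rhtr rhsd rlon rinj
theorem rhcy : S_HCY := _root_.Pool.CND.hcy_thm rhst rfxp rrst rart rher rlon rinj
theorem rhab : S_HAB := _root_.Pool.CND.hab_thm rabc rfxp rrst rart rher rhcy ruqt rhsd rlon rinj rumw rwld rsub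
theorem rhac : S_HAC := _root_.Pool.CND.hac_thm rfxp rrst rart rher ruqt rhab rumw rram rtot
theorem rdru : S_DRU := _root_.Pool.CND.dru_thm
theorem rkep : S_KEP := _root_.Pool.CND.kep_thm rdru
theorem rdrv : S_DRV := _root_.Pool.CND.drv_thm rdru
theorem rpee : S_PEE := _root_.Pool.CND.pee_thm rkep rdrv rdru rrmx rtot rvec rwld
theorem rvas : S_VAS := _root_.Pool.CND.vas_thm rumw
theorem rvsm : S_VSM := _root_.Pool.CND.vsm_thm rvas rfxp rrst rher rart rram
theorem robs : S_OBS := _root_.Pool.CND.obs_thm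
theorem rhbx : S_HBX := _root_.Pool.CND.hbx_thm rher rfxp rrst rart rumw rinj rlo2
theorem rvhy : S_VHY := _root_.Pool.CND.vhy_thm rvas rrmx rhbx
theorem rvva : S_VVA := _root_.Pool.CND.vva_thm rvas rfxp rrst rher rart rinj rtot
theorem rvvb : S_VVB := _root_.Pool.CND.vvb_thm rvas rtot rvec
theorem rvvv : S_VVV := _root_.Pool.CND.vvv_thm rvas rvva rvvb rtot rvec
theorem rvic : S_VIC := _root_.Pool.CND.vic_thm rvas
theorem rvis : S_VIS := _root_.Pool.CND.vis_thm robs rvhy rvvv rvic rvas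
theorem rwca : S_WCA := _root_.Pool.CND.wca_thm
theorem rvqq : S_VQQ := _root_.Pool.CND.vqq_thm rwca
theorem rvdg : S_VDG := _root_.Pool.CND.vdg_thm rvas rrmx rtot
theorem rvml : S_VML := _root_.Pool.CND.vml_thm rvqq rvdg rwca
theorem rwco : S_WCO := _root_.Pool.CND.wco_thm
theorem rvbz : S_VBZ := _root_.Pool.CND.vbz_thm rvhy rvvv
theorem rve1 : S_VE1 := _root_.Pool.CND.ve1_thm rvas rwco rwca rvvv rvbz
theorem rve2 : S_VE2 := _root_.Pool.CND.ve2_thm rvas rwca rvvv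
theorem rvht : S_VHT := _root_.Pool.CND.vht_thm rvas rvsm rrmx rlo2 rinj
theorem rvvg : S_VVG := _root_.Pool.CND.vvg_thm rvht rvas
theorem rdrh : S_DRH := _root_.Pool.CND.drh_thm
theorem rve3 : S_VE3 := _root_.Pool.CND.ve3_thm rvvg rdrh rvvv rvas
theorem rvla : S_VLA := _root_.Pool.CND.vla_thm rvis rvml rve1 rve2 rve3
theorem rvi1 : S_VI1 := _root_.Pool.CND.vi1_thm rvla
theorem rvpo : S_VPO := _root_.Pool.CND.vpo_thm rvas rlon rinj
theorem rpcg : S_PCG := _root_.Pool.CND.pcg_thm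
theorem rpcq : S_PCQ := _root_.Pool.CND.pcq_thm
theorem rvin : S_VIN := _root_.Pool.CND.vin_thm rvi1 rvsm rvpo rpcg rpcq rvas
theorem rvtg : S_VTG := _root_.Pool.CND.vtg_thm rvhy rvvv rvvg rvas rtot
theorem rvcz : S_VCZ := _root_.Pool.CND.vcz_thm rvin rvtg rvsm rvpo rpcq rvas
theorem rhap : S_HAP := _root_.Pool.CND.hap_thm rhac rpee rvsm rvcz ruqt rumw
theorem rinp : S_INP := _root_.Pool.CND.inp_thm rhap rmax rcmb rhbp rumw
theorem rdf1 : S_DF1 := _root_.Pool.CND.df1_thm rtot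
theorem rdf2 : S_DF2 := _root_.Pool.CND.df2_thm rdf1
theorem rdv0 : S_DV0 := _root_.Pool.CND.dv0_thm rlex rdls
theorem rod2 : S_OD2 := _root_.Pool.CND.od2_thm rdf1 rdf2 rdv0
theorem rint : S_INT := _root_.Pool.CND.int_thm rod2 rhbp rumw rsub
theorem rngd : S_NGD := _root_.Pool.CND.ngd_thm
theorem rgdx : S_GDX := _root_.Pool.CND.gdx_thm rylo rncl rinp rint rcon rngd rram
theorem rpg1 : S_PG1 := _root_.Pool.CND.pg1_thm
theorem rpg2 : S_PG2 := _root_.Pool.CND.pg2_thm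
theorem rpgn : S_PGN := _root_.Pool.CND.pgn_thm rpg1 rpg2 rgdx
theorem rsq1 : S_SQ1 := _root_.Pool.CND.sq1_thm
theorem rsq2 : S_SQ2 := _root_.Pool.CND.sq2_thm
theorem rsqp : S_SQP := _root_.Pool.CND.sqp_thm
theorem rsqg : S_SQG := _root_.Pool.CND.sqg_thm rsq1 rsq2 rsqp rgdx

end Pool.CND.CGdx
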