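import Pool.Agent.H1.CNK.DVA
import Pool.Agent.H1.CNK.DVV
import Pool.Agent.H1.CNZ.TWI
import Pool.Agent.H12.CNP.ELH
import Pool.Agent.H14.CND.TOT
import Pool.Agent.H14.CNL.ZUW
import Pool.Agent.H14.CNS.OM1
import Pool.Agent.H14.CNZ.ZBD
import Pool.Agent.H16.CNK.CHY
import Pool.Agent.H17.CND.LON
import Pool.Agent.H17.CND.ZPW
import Pool.Agent.H17.CNK.DVB
import Pool.Agent.H17.CNK.THT
import Pool.Agent.H17.CNP.TRM
import Pool.Agent.H17.CNX.XAP
import Pool.Agent.H18.CNZ.CCO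
import Pool.Agent.H2.CND.CNG
import Pool.Agent.H2.CNK.YQQ
import Pool.Agent.H2.CNZ.CES
import Pool.Agent.H2.CNZ.CUN
import Pool.Agent.H22.CNM.APA
import Pool.Agent.H23.CNK.BAS
import Pool.Agent.H23.CNK.YML
import Pool.Agent.H23.CNX.XGA
import Pool.Agent.H25.CNJ.PMY
import Pool.Agent.H26.CNM.ALP
import Pool.Agent.H26.CNZ.CJC
import Pool.Agent.H26.CNZ.CMU
import Pool.Agent.H26.CNZ.UQM
import Pool.Agent.H3.CND.ART
import Pool.Agent.H3.CNZ.QCC
import Pool.Agent.H34.CND.LO2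
import Pool.Agent.H36.CND.CMB
import Pool.Agent.H36.CND.NGD
import Pool.Agent.H36.CND.WLD
import Pool.Agent.H36.CNZ.PE0
import Pool.Agent.H37.CND2.CGdw
import Pool.Agent.H40.CND.TMO
import Pool.Agent.H40.CNK.ME2
import Pool.Agent.H41.CNK.PCN
import Pool.Agent.H42.CND.ELG
import Pool.Agent.H44.CND.MAX
import Pool.Agent.H44.CNZ.ZCV
import Pool.Agent.H47.CNK.HI1
import Pool.Agent.H47.CNP.ASR
import Pool.Agent.H48.CNM.APB
import Pool.Agent.H50.CNX.XUN
import Pool.Agent.H51.CNK.LBZ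
import Pool.Agent.H52.CND.VEC
import Pool.Agent.H52.CND.WPG
import Pool.Agent.H52.CNK.YIC
import Pool.Agent.H53.CNK.DKK
import Pool.Agent.H53.CNM.APD
import Pool.Agent.H54.CND.CONC
import Pool.Agent.H54.CNJ.UTS
import Pool.Agent.H54.CNZ.TRS
import Pool.Agent.H55.CNK.ITG
import Pool.Agent.H62.CNK.LPO
import Pool.Agent.H62.CNZ.ZRA
import Pool.Agent.H62.CNZ.ZRB
import Pool.Agent.H63.CNS.OM3
import Pool.Agent.H63.CNZ.ZGD
import Pool.Agent.H64.CND.INJ
import Pool.Agent.H64.CNS.OM2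
import Pool.Agent.H65.CNZ.ZHF
import Pool.Agent.H66.CNK.PCZ
import Pool.Agent.H66.CNS.PTR
import Pool.Agent.H66.CNZ.CIR
import Pool.Agent.H67.CND.RAM
import Pool.Agent.H70.CNJ.UT4
import Pool.Agent.H70.CNZ.CMA
import Pool.Agent.H71.CND.UMW
import Pool.Agent.H71.CNZ.ZHH
import Pool.Agent.H72.CNK.ME1
import Pool.Agent.H72.CNK.QSM
import Pool.Agent.H74.CNK.MLA
import Pool.Agent.H74.CNZ.CUQ
import Pool.Agent.H74.CNZ.ZFF
import Pool.Agent.H74.CNZ.ZHD
import Pool.Agent.H78.CND.RST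
import Pool.Agent.H78.CNJ.UT3
import Pool.Agent.H78.CNK.HIN
import Pool.Agent.H78.CNM.PMX
import Pool.Agent.H78.CNZ.PEX
import Pool.Agent.H78.CNZ.ZMN
import Pool.Agent.H86.CNK.AVG
import Pool.Agent.H86.CNM.APE
import Pool.Agent.H86.CNX.XDC
import Pool.Agent.H88.CND.EXP
import Pool.Agent.H88.CND.FXP
import Pool.Agent.H88.CNZ.CGA
import Pool.Agent.H90.CNP.CNV
import Pool.Agent.H91.CNK.DRP
import Pool.Agent.H93.CND.HER
import Pool.Agent.H93.CNK.ME3
import Pool.Agent.H97.CNK.YIS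
import Pool.Agent.H99.CND.SUB
import Pool.Agent.H99.CNK.RDG

/-!
# Denominators of conductors: the rows used, closed
-/

set_option autoImplicit false

namespace Pool.CND.CPmx

open Pool.CND

theorem rapa : S_APA := _root_.Pool.CND.apa_thm
theorem rapb : S_APB := _root_.Pool.CND.apb_thm rapa
theorem ralp : S_ALP := _root_.Pool.CND.alp_thm rapb
theorem rgdw : S_GDW := _root_.Pool.CND.CGdw.rgdw
theorem rzuw : S_ZUW := _root_.Pool.CND.zuw_thm rgdw
theorem rapd : S_APD := _root_.Pool.CND.apd_thm ralp rzuw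
theorem rape : S_APE := _root_.Pool.CND.ape_thm
theorem rzff : S_ZFF := _root_.Pool.CND.zff_thm
theorem rzhd : S_ZHD := _root_.Pool.CND.zhd_thm rzff
theorem rxga : S_XGA := _root_.Pool.CND.xga_thm
theorem rxap : S_XAP := _root_.Pool.CND.xap_thm
theorem rxun : S_XUN := _root_.Pool.CND.xun_thm rxap
theorem rpe0 : S_PE0 := _root_.Pool.CND.pe0_thm rxga rxun
theorem rexi : S_EXI := _root_.Pool.CND.CGdw.rexi
theorem rtrs : S_TRS := _root_.Pool.CND.trs_thm rexi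
theorem rcco : S_CCO := _root_.Pool.CND.cco_thm rtrs
theorem rcir : S_CIR := _root_.Pool.CND.cir_thm
theorem rcga : S_CGA := _root_.Pool.CND.cga_thm
theorem rrsp : S_RSP := _root_.Pool.CND.CGdw.rrsp
theorem rcun : S_CUN := _root_.Pool.CND.cun_thm rrsp
theorem rces : S_CES := _root_.Pool.CND.ces_thm rcco rcir rcga rcun
theorem rpex : S_PEX := _root_.Pool.CND.pex_thm rpe0 rces
theorem rzgd : S_ZGD := _root_.Pool.CND.zgd_thm
theorem rzra : S_ZRA := _root_.Pool.CND.zra_thm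
theorem rzrb : S_ZRB := _root_.Pool.CND.zrb_thm
theorem rzhh : S_ZHH := _root_.Pool.CND.zhh_thm rxap rzra rzrb
theorem rasr : S_ASR := _root_.Pool.CND.asr_thm
theorem rrmx : S_RMX := _root_.Pool.CND.CGdw.rrmx
theorem rtot : S_TOT := _root_.Pool.CND.tot_thm
theorem rslx : S_SLX := _root_.Pool.CND.CGdw.rslx
theorem rtrm : S_TRM := _root_.Pool.CND.trm_thm rrmx rtot rslx
theorem rexp : S_EXP := _root_.Pool.CND.exp_thm
theorem rtmo : S_TMO := _root_.Pool.CND.tmo_thm rexp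
theorem rzpw : S_ZPW := _root_.Pool.CND.zpw_thm
theorem rlon : S_LON := _root_.Pool.CND.lon_thm rexp rzpw
theorem rinj : S_INJ := _root_.Pool.CND.inj_thm rlon
theorem rram : S_RAM := _root_.Pool.CND.ram_thm rlon rinj
theorem rumw : S_UMW := _root_.Pool.CND.umw_thm rram rlon rinj
theorem relh : S_ELH := _root_.Pool.CND.elh_thm
theorem relg : S_ELG := _root_.Pool.CND.elg_thm
theorem rhbx : S_HBX := _root_.Pool.CND.CGdw.rhbx
theorem rcmb : S_CMB := _root_.Pool.CND.cmb_thm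
theorem rcnv : S_CNV := _root_.Pool.CND.cnv_thm rram rumw
theorem rxdc : S_XDC := _root_.Pool.CND.xdc_thm rtrm rrmx rslx rtot rtmo rram rumw relh relg rhbx rcmb rcnv rxap
theorem rzcv : S_ZCV := _root_.Pool.CND.zcv_thm rasr rxga rexi rxun rxdc
theorem rzbd : S_ZBD := _root_.Pool.CND.zbd_thm
theorem rtrv : S_TRV := _root_.Pool.CND.CGdw.rtrv
theorem rcjc : S_CJC := _root_.Pool.CND.cjc_thm rtrv
theorem rcuq : S_CUQ := _root_.Pool.CND.cuq_thm
theorem rcma : S_CMA := _root_.Pool.CND.cma_thm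
theorem rcmu : S_CMU := _root_.Pool.CND.cmu_thm rrsp
theorem rfxp : S_FXP := _root_.Pool.CND.fxp_thm rtot
theorem rrst : S_RST := _root_.Pool.CND.rst_thm
theorem rart : S_ART := _root_.Pool.CND.art_thm
theorem rher : S_HER := _root_.Pool.CND.her_thm rlon rinj
theorem rsub : S_SUB := _root_.Pool.CND.sub_thm
theorem rwpg : S_WPG := _root_.Pool.CND.wpg_thm rlon
theorem rwld : S_WLD := _root_.Pool.CND.wld_thm rsub rwpg rtmo
theorem ruqm : S_UQM := _root_.Pool.CND.uqm_thm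
theorem ruqt : S_UQT := _root_.Pool.CND.CGdw.ruqt
theorem rcon : S_CON := _root_.Pool.CND.con_thm rram
theorem rqcc : S_QCC := _root_.Pool.CND.qcc_thm rrsp rtot rrmx rfxp rrst rart rher rtrv rwld rram rumw rinj rlon ruqm ruqt rcon rcnv
theorem rqu1 : S_QU1 := _root_.Pool.CND.CGdw.rqu1
theorem rtwi : S_TWI := _root_.Pool.CND.twi_thm rcma rcmu rqcc rcjc rcuq rexi rrsp rtrv rqu1 rcnv rwld
theorem rpun : S_PUN := _root_.Pool.CND.CGdw.rpun
theorem rzmn : S_ZMN := _root_.Pool.CND.zmn_thm rpex rzgd rzhh rzcv rzbd rcjc rcuq rtwi rpun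
theorem rzhf : S_ZHF := _root_.Pool.CND.zhf_thm rzhd rzmn
theorem rdrv : S_DRV := _root_.Pool.CND.CGdw.rdrv
theorem robs : S_OBS := _root_.Pool.CND.CGdw.robs
theorem rncl : S_NCL := _root_.Pool.CND.CGdw.rncl
theorem rmax : S_MAX := _root_.Pool.CND.max_thm
theorem rptr : S_PTR := _root_.Pool.CND.ptr_thm rncl rmax rsub
theorem rinf : S_INF := _root_.Pool.CND.CGdw.rinf
theorem rbas : S_BAS := _root_.Pool.CND.bas_thm rptr rinf rumw rsub
theorem rchy : S_CHY := _root_.Pool.CND.chy_thm rbas rrmx rhbx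
theorem rdkk : S_DKK := _root_.Pool.CND.dkk_thm
theorem rqsm : S_QSM := _root_.Pool.CND.qsm_thm rbas rqu1 rfxp rrst rher rart
theorem rdva : S_DVA := _root_.Pool.CND.dva_thm rbas rdkk rqsm rlon
theorem rvec : S_VEC := _root_.Pool.CND.vec_thm
theorem rdvb : S_DVB := _root_.Pool.CND.dvb_thm rbas rtot rvec
theorem rdvv : S_DVV := _root_.Pool.CND.dvv_thm rbas rdkk rdva rdvb
theorem ryic : S_YIC := _root_.Pool.CND.yic_thm rbas rqsm
theorem ryis : S_YIS := _root_.Pool.CND.yis_thm robs rchy rdvv ryic rbas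
theorem rwca : S_WCA := _root_.Pool.CND.CGdw.rwca
theorem ryqq : S_YQQ := _root_.Pool.CND.yqq_thm rwca
theorem rrdg : S_RDG := _root_.Pool.CND.rdg_thm rbas rrmx rtot
theorem ryml : S_YML := _root_.Pool.CND.yml_thm ryqq rrdg rwca
theorem rwco : S_WCO := _root_.Pool.CND.CGdw.rwco
theorem rlbz : S_LBZ := _root_.Pool.CND.lbz_thm rchy rdvv
theorem rme1 : S_ME1 := _root_.Pool.CND.me1_thm rbas rwco rwca rdvv rlbz
theorem rme2 : S_ME2 := _root_.Pool.CND.me2_thm rbas rwca rdvv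
theorem rlo2 : S_LO2 := _root_.Pool.CND.lo2_thm rexp rzpw rlon
theorem rtht : S_THT := _root_.Pool.CND.tht_thm rbas rqsm rrmx rlo2 rinj
theorem ravg : S_AVG := _root_.Pool.CND.avg_thm rtht rbas
theorem rdrh : S_DRH := _root_.Pool.CND.CGdw.rdrh
theorem rdru : S_DRU := _root_.Pool.CND.CGdw.rdru
theorem rdrp : S_DRP := _root_.Pool.CND.drp_thm rdru
theorem rme3 : S_ME3 := _root_.Pool.CND.me3_thm ravg rdrh rdrp rdvv rdkk rbas
theorem rmla : S_MLA := _root_.Pool.CND.mla_thm rdrv ryis ryml rme1 rme2 rme3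
theorem rhi1 : S_HI1 := _root_.Pool.CND.hi1_thm rmla
theorem rlpo : S_LPO := _root_.Pool.CND.lpo_thm rbas rlon rinj
theorem rpcg : S_PCG := _root_.Pool.CND.CGdw.rpcg
theorem rpcq : S_PCQ := _root_.Pool.CND.CGdw.rpcq
theorem rhin : S_HIN := _root_.Pool.CND.hin_thm rhi1 rqsm rlpo rpcg rpcq rbas
theorem ritg : S_ITG := _root_.Pool.CND.itg_thm rchy rdvv ravg rdrv rdkk rbas
theorem rpcz : S_PCZ := _root_.Pool.CND.pcz_thm rhin ritg rqsm rlpo rpcq rcon rbas
theorem rom1 : S_OM1 := _root_.Pool.CND.om1_thm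
theorem rom2 : S_OM2 := _root_.Pool.CND.om2_thm
theorem rom3 : S_OM3 := _root_.Pool.CND.om3_thm rom1 rom2 rzhf
theorem rngd : S_NGD := _root_.Pool.CND.ngd_thm
theorem rpcn : S_PCN := _root_.Pool.CND.pcn_thm rpcz rom3 rngd
theorem rpmx : S_PMX := _root_.Pool.CND.pmx_thm rapd rape rzhf rpcn
theorem rpmy : S_PMY := _root_.Pool.CND.pmy_thm rapd rzhf
theorem rut3 : S_UT3 := _root_.Pool.CND.ut3_thm rzhf rzuw
theorem rut4 : S_UT4 := _root_.Pool.CND.ut4_thm rzhf rzuw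
theorem rcng : S_CNG := _root_.Pool.CND.cng_thm
theorem ruts : S_UTS := _root_.Pool.CND.uts_thm rut3 rut4 rcng

end Pool.CND.CPmx
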