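import Pool.Agent.H1.CND.SAM
import Pool.Agent.H12.CND.LSP
import Pool.Agent.H14.CND.TOT
import Pool.Agent.H14.CNU.UNC
import Pool.Agent.H14.CNY.INC
import Pool.Agent.H16.CNU.UNF
import Pool.Agent.H17.CND.LON
import Pool.Agent.H17.CND.ZPW
import Pool.Agent.H17.CNR.WQU
import Pool.Agent.H17.CNR.WRU
import Pool.Agent.H17.CNU.UND
import Pool.Agent.H18.CND.HBP
import Pool.Agent.H2.CNE.SLD
import Pool.Agent.H2.CNE.SLI
import Pool.Agent.H2.CNR.WRT
import Pool.Agent.H2.CNR.WUN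
import Pool.Agent.H2.CNU.UNS
import Pool.Agent.H2.CNU.UNT
import Pool.Agent.H22.CND.ELA
import Pool.Agent.H22.CNW.XSY
import Pool.Agent.H23.CNW.XPP
import Pool.Agent.H26.CNR.WP1
import Pool.Agent.H26.CNW.XNH
import Pool.Agent.H3.CND.ART
import Pool.Agent.H31.CNW.XGX
import Pool.Agent.H33.CNR.WRL
import Pool.Agent.H34.CND.LO2
import Pool.Agent.H34.CNS.GDV
import Pool.Agent.H34.CNW.XRR
import Pool.Agent.H36.CND.CMB
import Pool.Agent.H36.CND.NGD
import Pool.Agent.H36.CND.WLD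
import Pool.Agent.H36.CNW.XPU
import Pool.Agent.H37.CND2.CGdw
import Pool.Agent.H37.CND2.CPmx
import Pool.Agent.H40.CND.TMO
import Pool.Agent.H40.CNU.UNB
import Pool.Agent.H42.CND.ELG
import Pool.Agent.H44.CND.MAX
import Pool.Agent.H45.CNW.XPQ
import Pool.Agent.H46.CNR.NBX
import Pool.Agent.H48.CNE.SLE
import Pool.Agent.H48.CNR.FNA
import Pool.Agent.H48.CNW.XCC
import Pool.Agent.H49.CNW.XD2
import Pool.Agent.H50.CNR.WP4
import Pool.Agent.H50.CNU.UNK
import Pool.Agent.H51.CNE.SLS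
import Pool.Agent.H52.CND.VEC
import Pool.Agent.H52.CND.WPG
import Pool.Agent.H52.CNU.UNL
import Pool.Agent.H52.CNW.XRL
import Pool.Agent.H54.CND.CONC
import Pool.Agent.H54.CNU.UNE
import Pool.Agent.H54.CNV.VB1
import Pool.Agent.H55.CNE.SLT
import Pool.Agent.H56.CNR.WCC
import Pool.Agent.H61.CNE.SLG
import Pool.Agent.H62.CND.IRR
import Pool.Agent.H62.CNE.SBP
import Pool.Agent.H62.CNE.SLV
import Pool.Agent.H62.CNR.WLX
import Pool.Agent.H62.CNU.UNR
import Pool.Agent.H62.CNW.XD4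
import Pool.Agent.H64.CND.INJ
import Pool.Agent.H66.CNR.WP3
import Pool.Agent.H66.CNU.UNG
import Pool.Agent.H67.CND.RAM
import Pool.Agent.H67.CNR.WRS
import Pool.Agent.H67.CNR.WUB
import Pool.Agent.H67.CNW.XPW
import Pool.Agent.H67.CNW.XUX
import Pool.Agent.H70.CNR.WP2
import Pool.Agent.H71.CND.UMW
import Pool.Agent.H78.CND.RST
import Pool.Agent.H78.CNE.SLF
import Pool.Agent.H78.CNW.XLY
import Pool.Agent.H80.CNW.XD1
import Pool.Agent.H86.CNQ.ALL
import Pool.Agent.H86.CNR.WRE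
import Pool.Agent.H86.CNR.WUV
import Pool.Agent.H86.CNU.UNV
import Pool.Agent.H86.CNU.UNX
import Pool.Agent.H88.CND.EXP
import Pool.Agent.H88.CND.FXP
import Pool.Agent.H88.CNR.FNL
import Pool.Agent.H89.CNW.XDI
import Pool.Agent.H91.CNR.WLY
import Pool.Agent.H91.CNW.XNU
import Pool.Agent.H93.CND.HER
import Pool.Agent.H99.CND.SUB
import Pool.Agent.H99.CNE.SRL
import Pool.Agent.H99.CNR.WGX

/-!
# Denominators of conductors: the rows used, closed
-/

set_option autoImplicit false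

namespace Pool.CND.CWre

open Pool.CND

theorem rfrc : S_FRC := _root_.Pool.CND.CGdw.rfrc
theorem rinf : S_INF := _root_.Pool.CND.CPmx.rinf
theorem rreg : S_REG := _root_.Pool.CND.CGdw.rreg
theorem rlex : S_LEX := _root_.Pool.CND.CGdw.rlex
theorem rtrv : S_TRV := _root_.Pool.CND.CPmx.rtrv
theorem rxrr : S_XRR := _root_.Pool.CND.xrr_thm rfrc rinf rreg rlex rtrv
theorem rnbx : S_NBX := _root_.Pool.CND.nbx_thm rfrc
theorem rxnu : S_XNU := _root_.Pool.CND.xnu_thm rnbx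
theorem rfnl : S_FNL := _root_.Pool.CND.fnl_thm
theorem rfna : S_FNA := _root_.Pool.CND.fna_thm rreg rlex rfnl
theorem rxly : S_XLY := _root_.Pool.CND.xly_thm rxrr rxnu rfna
theorem rxgx : S_XGX := _root_.Pool.CND.xgx_thm
theorem rrsp : S_RSP := _root_.Pool.CND.CPmx.rrsp
theorem rxux : S_XUX := _root_.Pool.CND.xux_thm rrsp
theorem rexi : S_EXI := _root_.Pool.CND.CPmx.rexi
theorem rwp4 : S_WP4 := _root_.Pool.CND.wp4_thm rexi rrsp rtrv
theorem rrmx : S_RMX := _root_.Pool.CND.CPmx.rrmx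
theorem rtot : S_TOT := _root_.Pool.CND.tot_thm
theorem rwp1 : S_WP1 := _root_.Pool.CND.wp1_thm rrmx rtot
theorem rfxp : S_FXP := _root_.Pool.CND.fxp_thm rtot
theorem rrst : S_RST := _root_.Pool.CND.rst_thm
theorem rexp : S_EXP := _root_.Pool.CND.exp_thm
theorem rzpw : S_ZPW := _root_.Pool.CND.zpw_thm
theorem rlon : S_LON := _root_.Pool.CND.lon_thm rexp rzpw
theorem rinj : S_INJ := _root_.Pool.CND.inj_thm rlon
theorem rher : S_HER := _root_.Pool.CND.her_thm rlon rinj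
theorem rart : S_ART := _root_.Pool.CND.art_thm
theorem rwp2 : S_WP2 := _root_.Pool.CND.wp2_thm rwp1 rfxp rrst rher rart rlon
theorem rsub : S_SUB := _root_.Pool.CND.sub_thm
theorem rwpg : S_WPG := _root_.Pool.CND.wpg_thm rlon
theorem rtmo : S_TMO := _root_.Pool.CND.tmo_thm rexp
theorem rwld : S_WLD := _root_.Pool.CND.wld_thm rsub rwpg rtmo
theorem rwp3 : S_WP3 := _root_.Pool.CND.wp3_thm rtrv rwld
theorem rlo2 : S_LO2 := _root_.Pool.CND.lo2_thm rexp rzpw rlon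
theorem rirr : S_IRR := _root_.Pool.CND.irr_thm rlo2
theorem rsam : S_SAM := _root_.Pool.CND.sam_thm rlon rinj
theorem rxd1 : S_XD1 := _root_.Pool.CND.xd1_thm rfxp rrst rart rher rirr rlo2 rsam rtmo rinj
theorem rram : S_RAM := _root_.Pool.CND.ram_thm rlon rinj
theorem rumw : S_UMW := _root_.Pool.CND.umw_thm rram rlon rinj
theorem rxd2 : S_XD2 := _root_.Pool.CND.xd2_thm rumw rlon rinj
theorem rcnv : S_CNV := _root_.Pool.CND.CPmx.rcnv
theorem rxcc : S_XCC := _root_.Pool.CND.xcc_thm rwp1 rwp2 rwp3 rxd1 rxd2 rtot rlon rcnv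
theorem rpun : S_PUN := _root_.Pool.CND.CPmx.rpun
theorem rall : S_ALL := _root_.Pool.CND.all_thm rpun
theorem rxrl : S_XRL := _root_.Pool.CND.xrl_thm rxly rxgx rxux rwp4 rxcc rall
theorem rqu1 : S_QU1 := _root_.Pool.CND.CPmx.rqu1
theorem rwqu : S_WQU := _root_.Pool.CND.wqu_thm rqu1 rrsp
theorem rxpq : S_XPQ := _root_.Pool.CND.xpq_thm rwp2 rwp3 rcnv rumw rtmo
theorem rmax : S_MAX := _root_.Pool.CND.max_thm
theorem rhbp : S_HBP := _root_.Pool.CND.hbp_thm rfxp rrst rart rher rsam rirr rumw rinj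
theorem rydv : S_YDV := _root_.Pool.CND.CGdw.rydv
theorem ryth : S_YTH := _root_.Pool.CND.CGdw.ryth
theorem rycy : S_YCY := _root_.Pool.CND.CGdw.rycy
theorem rxdi : S_XDI := _root_.Pool.CND.xdi_thm rmax rhbp rydv ryth rycy rwld
theorem rcon : S_CON := _root_.Pool.CND.con_thm rram
theorem rxd4 : S_XD4 := _root_.Pool.CND.xd4_thm rxd1 rxd2 rxdi rcon rram rinj
theorem rngd : S_NGD := _root_.Pool.CND.ngd_thm
theorem rxpu : S_XPU := _root_.Pool.CND.xpu_thm rwqu rxpq rall rxd4 rwp3 rngd rsub rcon rwld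
theorem rxnh : S_XNH := _root_.Pool.CND.xnh_thm rcon rirr rngd rwld rumw rinj
theorem rxpw : S_XPW := _root_.Pool.CND.xpw_thm rxrl rxpu rxnh
theorem rptr : S_PTR := _root_.Pool.CND.CPmx.rptr
theorem rpex : S_PEX := _root_.Pool.CND.CPmx.rpex
theorem rylo : S_YLO := _root_.Pool.CND.CGdw.rylo
theorem rncl : S_NCL := _root_.Pool.CND.CPmx.rncl
theorem rcmb : S_CMB := _root_.Pool.CND.cmb_thm
theorem rhac : S_HAC := _root_.Pool.CND.CGdw.rhac
theorem rinc : S_INC := _root_.Pool.CND.inc_thm rmax rcmb rhbp rumw rhac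
theorem rgdv : S_GDV := _root_.Pool.CND.gdv_thm rylo rncl rinc rcon rngd rram
theorem rxpp : S_XPP := _root_.Pool.CND.xpp_thm rxpw rptr rpex rexi rgdv
theorem rxsy : S_XSY := _root_.Pool.CND.xsy_thm rxpp
theorem rwap : S_WAP := _root_.Pool.CND.CGdw.rwap
theorem rwlx : S_WLX := _root_.Pool.CND.wlx_thm rwap rfrc
theorem rwly : S_WLY := _root_.Pool.CND.wly_thm rwlx rnbx rfna
theorem rwgx : S_WGX := _root_.Pool.CND.wgx_thm
theorem rwun : S_WUN := _root_.Pool.CND.wun_thm rrsp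
theorem rhbx : S_HBX := _root_.Pool.CND.CPmx.rhbx
theorem ruqm : S_UQM := _root_.Pool.CND.CPmx.ruqm
theorem relg : S_ELG := _root_.Pool.CND.elg_thm
theorem rwuv : S_WUV := _root_.Pool.CND.wuv_thm rwp1 rtot rlon rhbx ruqm relg rcmb rfxp rrst rher rumw rwld rhbp rtmo
theorem rwcc : S_WCC := _root_.Pool.CND.wcc_thm rwp2 rwp3 rcnv rumw rwld
theorem rwrl : S_WRL := _root_.Pool.CND.wrl_thm rwly rwgx rwun rwp4 rwuv rwcc rall
theorem rela : S_ELA := _root_.Pool.CND.ela_thm relg rcmb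
theorem rwru : S_WRU := _root_.Pool.CND.wru_thm rwp2 rwp3 rcon rela rumw rhbp rwld
theorem rwub : S_WUB := _root_.Pool.CND.wub_thm rwqu rwru rngd rsub
theorem rwre : S_WRE := _root_.Pool.CND.wre_thm rwrl rwub
theorem rsrl : S_SRL := _root_.Pool.CND.srl_thm
theorem rlsp : S_LSP := _root_.Pool.CND.lsp_thm
theorem rsbp : S_SBP := _root_.Pool.CND.sbp_thm
theorem rsls : S_SLS := _root_.Pool.CND.sls_thm
theorem rvec : S_VEC := _root_.Pool.CND.vec_thm
theorem rslx : S_SLX := _root_.Pool.CND.CPmx.rslx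
theorem rslv : S_SLV := _root_.Pool.CND.slv_thm rsls rvec rslx
theorem rslt : S_SLT := _root_.Pool.CND.slt_thm
theorem rslm : S_SLM := _root_.Pool.CND.slm_thm
theorem rsld : S_SLD := _root_.Pool.CND.sld_thm rslv rslt rslm
theorem rslg : S_SLG := _root_.Pool.CND.slg_thm
theorem rsle : S_SLE := _root_.Pool.CND.sle_thm rsrl rlsp rsbp rsls rsld rslg
theorem rsli : S_SLI := _root_.Pool.CND.sli_thm
theorem rslf : S_SLF := _root_.Pool.CND.slf_thm rvec rslx
theorem rwrs : S_WRS := _root_.Pool.CND.wrs_thm rwre rwld rsub rncl rsle rsli rslf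
theorem runb : S_UNB := _root_.Pool.CND.unb_thm
theorem rvb1 : S_VB1 := _root_.Pool.CND.vb1_thm runb
theorem runl : S_UNL := _root_.Pool.CND.unl_thm
theorem runr : S_UNR := _root_.Pool.CND.unr_thm
theorem runs : S_UNS := _root_.Pool.CND.uns_thm
theorem runx : S_UNX := _root_.Pool.CND.unx_thm
theorem runv : S_UNV := _root_.Pool.CND.unv_thm runs runx rvec
theorem runt : S_UNT := _root_.Pool.CND.unt_thm
theorem rund : S_UND := _root_.Pool.CND.und_thm runr runv runt rslm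
theorem runc : S_UNC := _root_.Pool.CND.unc_thm
theorem rung : S_UNG := _root_.Pool.CND.ung_thm runc
theorem rune : S_UNE := _root_.Pool.CND.une_thm runl rlsp rsbp runr runs rund rung
theorem runk : S_UNK := _root_.Pool.CND.unk_thm
theorem runf : S_UNF := _root_.Pool.CND.unf_thm rvec runx runb
theorem rwrt : S_WRT := _root_.Pool.CND.wrt_thm rwre rwld rncl rvb1 runb rune runk runf

end Pool.CND.CWre
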