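import Pool.Agent.H1.CND.SAM
import Pool.Agent.H1.CNU.UNO
import Pool.Agent.H1.CSZ.ZU1
import Pool.Agent.H12.CND.LSP
import Pool.Agent.H14.CND.TOT
import Pool.Agent.H14.CNW.PRF
import Pool.Agent.H17.CND.LON
import Pool.Agent.H17.CND.ZPW
import Pool.Agent.H17.CNU.UNN
import Pool.Agent.H17.CNV.VSU
import Pool.Agent.H18.CND.HBP
import Pool.Agent.H18.CSZ.ZZB
import Pool.Agent.H19.CNS.PRD
import Pool.Agent.H2.CND.CNG
import Pool.Agent.H2.CNE.SLO
import Pool.Agent.H2.CSZ.ISO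
import Pool.Agent.H2.CSZ.ZZC
import Pool.Agent.H21.CSZ.ZZK
import Pool.Agent.H21.CSZ.ZZT
import Pool.Agent.H22.CND.ELA
import Pool.Agent.H22.CNJ.HC2
import Pool.Agent.H25.CNU.UNP
import Pool.Agent.H25.CSZ.ZU3
import Pool.Agent.H29.CNQ.NQD
import Pool.Agent.H3.CND.ART
import Pool.Agent.H3.CSZ.ZZP
import Pool.Agent.H34.CND.LO2
import Pool.Agent.H36.CND.CMB
import Pool.Agent.H36.CND.NGD
import Pool.Agent.H36.CND.WLD
import Pool.Agent.H37.CND2.CGdw
import Pool.Agent.H37.CND2.CPmx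
import Pool.Agent.H37.CND2.CWre
import Pool.Agent.H40.CND.TMO
import Pool.Agent.H40.CNE.SLN
import Pool.Agent.H40.CNE.SLR
import Pool.Agent.H40.CNE.SLU
import Pool.Agent.H40.CNP.PSA
import Pool.Agent.H40.CNP.PSO
import Pool.Agent.H40.CNP.PSR
import Pool.Agent.H40.CNP.PSU
import Pool.Agent.H40.CNS.PRL
import Pool.Agent.H42.CND.ELG
import Pool.Agent.H44.CND.MAX
import Pool.Agent.H44.CNE.SLW
import Pool.Agent.H46.CNJ.RKP
import Pool.Agent.H49.CSZ.ZZX
import Pool.Agent.H50.CND.SYG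
import Pool.Agent.H50.CND.UPA
import Pool.Agent.H50.CSZ.ZU4
import Pool.Agent.H51.CNS.PUB
import Pool.Agent.H51.CSZ.ZZA
import Pool.Agent.H52.CND.WPG
import Pool.Agent.H53.CSZ.ZZV
import Pool.Agent.H54.CND.CONC
import Pool.Agent.H56.CNQ.QU2
import Pool.Agent.H61.CSZ.ZZG
import Pool.Agent.H62.CND.IRR
import Pool.Agent.H62.CNS.QCG
import Pool.Agent.H63.CND.IND
import Pool.Agent.H64.CND.INJ
import Pool.Agent.H65.CNV.VGW
import Pool.Agent.H66.CSZ.ZZR
import Pool.Agent.H67.CND.RAM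
import Pool.Agent.H67.CNJ.HC1
import Pool.Agent.H70.CNV.VB2
import Pool.Agent.H71.CND.UMW
import Pool.Agent.H71.CNH.INB
import Pool.Agent.H71.CSZ.ZU2
import Pool.Agent.H72.CSZ.ZZL
import Pool.Agent.H78.CND.NGL
import Pool.Agent.H78.CND.RST
import Pool.Agent.H78.CNE.SLB
import Pool.Agent.H78.CNP.PSB
import Pool.Agent.H78.CSZ.ZZN
import Pool.Agent.H79.CNE.TMC
import Pool.Agent.H79.CNE.TMI
import Pool.Agent.H79.CNE.UPG
import Pool.Agent.H86.CNQ.QUO
import Pool.Agent.H86.CNS.PRU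
import Pool.Agent.H86.CNV.VGP
import Pool.Agent.H86.CNV.VPU
import Pool.Agent.H86.CNV.VZC
import Pool.Agent.H86.CSZ.ZZE
import Pool.Agent.H88.CND.EXP
import Pool.Agent.H88.CND.FXP
import Pool.Agent.H89.CNJ.HC3
import Pool.Agent.H90.CNP.PSW
import Pool.Agent.H90.CNV.TAM
import Pool.Agent.H90.CSZ.ZZF
import Pool.Agent.H90.CSZ.ZZZ
import Pool.Agent.H93.CND.HER
import Pool.Agent.H99.CND.SUB
import Pool.Agent.H99.CNS.LBQ

/-!
# Denominators of conductors: the rows used, closed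
-/

set_option autoImplicit false

namespace Pool.CND.CLie

open Pool.CND

theorem rpu1 : S_PU1 := _root_.Pool.CND.CGdw.rpu1
theorem rpu2 : S_PU2 := _root_.Pool.CND.CGdw.rpu2
theorem rpu3 : S_PU3 := _root_.Pool.CND.CGdw.rpu3
theorem rpu4 : S_PU4 := _root_.Pool.CND.CGdw.rpu4
theorem rexp : S_EXP := _root_.Pool.CND.exp_thm
theorem rzpw : S_ZPW := _root_.Pool.CND.zpw_thm
theorem rlon : S_LON := _root_.Pool.CND.lon_thm rexp rzpw
theorem rlo2 : S_LO2 := _root_.Pool.CND.lo2_thm rexp rzpw rlon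
theorem rinj : S_INJ := _root_.Pool.CND.inj_thm rlon
theorem rram : S_RAM := _root_.Pool.CND.ram_thm rlon rinj
theorem rrmx : S_RMX := _root_.Pool.CND.CPmx.rrmx
theorem rslx : S_SLX := _root_.Pool.CND.CPmx.rslx
theorem rpub : S_PUB := _root_.Pool.CND.pub_thm rpu1 rpu2 rpu3 rpu4 rlo2 rram rinj rrmx rslx
theorem rcma : S_CMA := _root_.Pool.CND.CPmx.rcma
theorem rcmu : S_CMU := _root_.Pool.CND.CPmx.rcmu
theorem rqu1 : S_QU1 := _root_.Pool.CND.CPmx.rqu1
theorem rrsp : S_RSP := _root_.Pool.CND.CPmx.rrsp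
theorem rtot : S_TOT := _root_.Pool.CND.tot_thm
theorem rfxp : S_FXP := _root_.Pool.CND.fxp_thm rtot
theorem rrst : S_RST := _root_.Pool.CND.rst_thm
theorem rart : S_ART := _root_.Pool.CND.art_thm
theorem rher : S_HER := _root_.Pool.CND.her_thm rlon rinj
theorem rtrv : S_TRV := _root_.Pool.CND.CPmx.rtrv
theorem rsub : S_SUB := _root_.Pool.CND.sub_thm
theorem rwpg : S_WPG := _root_.Pool.CND.wpg_thm rlon
theorem rtmo : S_TMO := _root_.Pool.CND.tmo_thm rexp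
theorem rwld : S_WLD := _root_.Pool.CND.wld_thm rsub rwpg rtmo
theorem rumw : S_UMW := _root_.Pool.CND.umw_thm rram rlon rinj
theorem ruqm : S_UQM := _root_.Pool.CND.CPmx.ruqm
theorem ruqt : S_UQT := _root_.Pool.CND.CPmx.ruqt
theorem rcon : S_CON := _root_.Pool.CND.con_thm rram
theorem rcnv : S_CNV := _root_.Pool.CND.CPmx.rcnv
theorem rqcg : S_QCG := _root_.Pool.CND.qcg_thm rrsp rtot rrmx rfxp rrst rart rher rtrv rwld rtmo rram rumw rinj rlon ruqm ruqt rcon rcnv rsub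
theorem rcjc : S_CJC := _root_.Pool.CND.CPmx.rcjc
theorem rcuq : S_CUQ := _root_.Pool.CND.CPmx.rcuq
theorem rtac : S_TAC := _root_.Pool.CND.CGdw.rtac
theorem rinf : S_INF := _root_.Pool.CND.CPmx.rinf
theorem rlbq : S_LBQ := _root_.Pool.CND.lbq_thm rinf rlon rtrv rwld rsub
theorem rexi : S_EXI := _root_.Pool.CND.CPmx.rexi
theorem rprl : S_PRL := _root_.Pool.CND.prl_thm rpub rcma rcmu rqu1 rqcg rcjc rcuq rtac rlbq rcnv rexi rwld rsub
theorem rpru : S_PRU := _root_.Pool.CND.pru_thm rqu1 rqcg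
theorem rall : S_ALL := _root_.Pool.CND.CWre.rall
theorem rsam : S_SAM := _root_.Pool.CND.sam_thm rlon rinj
theorem rirr : S_IRR := _root_.Pool.CND.irr_thm rlo2
theorem rhbp : S_HBP := _root_.Pool.CND.hbp_thm rfxp rrst rart rher rsam rirr rumw rinj
theorem rsyg : S_SYG := _root_.Pool.CND.syg_thm
theorem rmax : S_MAX := _root_.Pool.CND.max_thm
theorem rcmb : S_CMB := _root_.Pool.CND.cmb_thm
theorem relg : S_ELG := _root_.Pool.CND.elg_thm
theorem rela : S_ELA := _root_.Pool.CND.ela_thm relg rcmb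
theorem rind : S_IND := _root_.Pool.CND.ind_thm rmax rcmb rela
theorem rupa : S_UPA := _root_.Pool.CND.upa_thm rwld rumw rhbp rsyg rind rcon
theorem rngd : S_NGD := _root_.Pool.CND.ngd_thm
theorem rcng : S_CNG := _root_.Pool.CND.cng_thm
theorem rprd : S_PRD := _root_.Pool.CND.prd_thm rprl rpru rall rupa rngd rcng
theorem rprf : S_PRF := _root_.Pool.CND.prf_thm rprl rprd rcng rtac rcnv rexi rsub
theorem rsle : S_SLE := _root_.Pool.CND.CWre.rsle
theorem rsli : S_SLI := _root_.Pool.CND.CWre.rsli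
theorem rhc1 : S_HC1 := _root_.Pool.CND.hc1_thm rsle rsli rqu1
theorem rune : S_UNE := _root_.Pool.CND.CWre.rune
theorem runk : S_UNK := _root_.Pool.CND.CWre.runk
theorem rhc2 : S_HC2 := _root_.Pool.CND.hc2_thm rune runk rqu1
theorem rzzl : S_ZZL := _root_.Pool.CND.zzl_thm
theorem rlsp : S_LSP := _root_.Pool.CND.lsp_thm
theorem rsbp : S_SBP := _root_.Pool.CND.CWre.rsbp
theorem rzzr : S_ZZR := _root_.Pool.CND.zzr_thm
theorem rzza : S_ZZA := _root_.Pool.CND.zza_thm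
theorem rzzx : S_ZZX := _root_.Pool.CND.zzx_thm
theorem rzzv : S_ZZV := _root_.Pool.CND.zzv_thm rzza rzzx
theorem rzzt : S_ZZT := _root_.Pool.CND.zzt_thm
theorem rzzb : S_ZZB := _root_.Pool.CND.zzb_thm
theorem rzzc : S_ZZC := _root_.Pool.CND.zzc_thm rzzb
theorem rzzg : S_ZZG := _root_.Pool.CND.zzg_thm rzzc
theorem rzze : S_ZZE := _root_.Pool.CND.zze_thm rzzl rlsp rsbp rzzr rzzv rzzt rzzg
theorem rzzk : S_ZZK := _root_.Pool.CND.zzk_thm
theorem rhc3 : S_HC3 := _root_.Pool.CND.hc3_thm rzze rzzk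
theorem rpsa : S_PSA := _root_.Pool.CND.psa_thm
theorem rslf : S_SLF := _root_.Pool.CND.CWre.rslf
theorem rpsb : S_PSB := _root_.Pool.CND.psb_thm rfxp rslf rlo2 rtmo rram rlon rinj
theorem rslb : S_SLB := _root_.Pool.CND.slb_thm rslf rram rlon rinj rtmo rlo2
theorem rsln : S_SLN := _root_.Pool.CND.sln_thm rslf rslb
theorem rslo : S_SLO := _root_.Pool.CND.slo_thm rsle rsli rsln
theorem rpso : S_PSO := _root_.Pool.CND.pso_thm rsle rpsa rpsb rslo
theorem rtmi : S_TMI := _root_.Pool.CND.tmi_thm rexp rlon rinj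
theorem rtmc : S_TMC := _root_.Pool.CND.tmc_thm rexp rlon rinj
theorem rupg : S_UPG := _root_.Pool.CND.upg_thm rwld rsub rumw rhbp rela rcon rtmi rtmc
theorem rslw : S_SLW := _root_.Pool.CND.slw_thm
theorem rpsw : S_PSW := _root_.Pool.CND.psw_thm rslw
theorem rpsu : S_PSU := _root_.Pool.CND.psu_thm rupg rpsw
theorem rngl : S_NGL := _root_.Pool.CND.ngl_thm
theorem rpsr : S_PSR := _root_.Pool.CND.psr_thm rpso rpsu rngl
theorem rslu : S_SLU := _root_.Pool.CND.slu_thm rupg rslw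
theorem rslr : S_SLR := _root_.Pool.CND.slr_thm rslo rslu rngl
theorem rylo : S_YLO := _root_.Pool.CND.CWre.rylo
theorem rylm : S_YLM := _root_.Pool.CND.CGdw.rylm
theorem rhab : S_HAB := _root_.Pool.CND.CGdw.rhab
theorem rinb : S_INB := _root_.Pool.CND.inb_thm rhab rmax rcmb rhbp rumw
theorem rtam : S_TAM := _root_.Pool.CND.tam_thm rylo rylm rcon rinb
theorem rvb1 : S_VB1 := _root_.Pool.CND.CWre.rvb1
theorem runb : S_UNB := _root_.Pool.CND.CWre.runb
theorem rvb2 : S_VB2 := _root_.Pool.CND.vb2_thm runb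
theorem rvgw : S_VGW := _root_.Pool.CND.vgw_thm rvb1 rvb2
theorem rvzc : S_VZC := _root_.Pool.CND.vzc_thm
theorem runf : S_UNF := _root_.Pool.CND.CWre.runf
theorem runn : S_UNN := _root_.Pool.CND.unn_thm runf runb rram rlon rinj rtmo rlo2
theorem runo : S_UNO := _root_.Pool.CND.uno_thm rune runk runn
theorem rpun : S_PUN := _root_.Pool.CND.CPmx.rpun
theorem runp : S_UNP := _root_.Pool.CND.unp_thm runo rpun
theorem rvsu : S_VSU := _root_.Pool.CND.vsu_thm rtam rvgw rvzc rngd runp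
theorem rvgp : S_VGP := _root_.Pool.CND.vgp_thm rvgw rvzc
theorem rqu2 : S_QU2 := _root_.Pool.CND.qu2_thm rrsp rtot rrmx rlo2 rinj rtrv rram rsub rwld rart rumw rcon rcnv
theorem rquo : S_QUO := _root_.Pool.CND.quo_thm rqu1 rqu2
theorem rnqd : S_NQD := _root_.Pool.CND.nqd_thm rquo rall rngd rupa
theorem rvpu : S_VPU := _root_.Pool.CND.vpu_thm rtam rvgp rvzc rngd rnqd runp
theorem rzzf : S_ZZF := _root_.Pool.CND.zzf_thm rzzk rinf rzzb
theorem rzzn : S_ZZN := _root_.Pool.CND.zzn_thm rzzf rzzb rram rlon rinj rtmo rlo2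
theorem rzzp : S_ZZP := _root_.Pool.CND.zzp_thm rzze rzzk rzzn rpun
theorem rgdv : S_GDV := _root_.Pool.CND.CWre.rgdv
theorem rzu1 : S_ZU1 := _root_.Pool.CND.zu1_thm rzzb rzzc
theorem riso : S_ISO := _root_.Pool.CND.iso_thm
theorem rzu2 : S_ZU2 := _root_.Pool.CND.zu2_thm riso rzzb
theorem rzu3 : S_ZU3 := _root_.Pool.CND.zu3_thm rzzb
theorem rzu4 : S_ZU4 := _root_.Pool.CND.zu4_thm rgdv rzu1 rzu2 rzu3 rzzb
theorem rzzz : S_ZZZ := _root_.Pool.CND.zzz_thm rzzp rzu4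
theorem rrkp : S_RKP := _root_.Pool.CND.rkp_thm rprf rhc1 rhc2 rhc3 rpsr rslr rvsu rvpu rnqd rvzc rzzz rcng

end Pool.CND.CLie
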