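import Pool.Agent.H1.CND.SAM
import Pool.Agent.H1.CNH.HCY
import Pool.Agent.H1.CNP.EXI
import Pool.Agent.H1.CNU.UNO
import Pool.Agent.H1.CNY.YLM
import Pool.Agent.H1.CSZ.ZU1
import Pool.Agent.H1.CTN.FN3
import Pool.Agent.H1.CTP.RFN
import Pool.Agent.H10.CTN.N44
import Pool.Agent.H11.CTN.AR1
import Pool.Agent.H12.CND.LSP
import Pool.Agent.H14.CND.TOT
import Pool.Agent.H14.CNH.UQT
import Pool.Agent.H14.CNS.REG
import Pool.Agent.H14.CNU.UNC
import Pool.Agent.H14.CNW.PRF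
import Pool.Agent.H14.CNY.INC
import Pool.Agent.H14.CNY.YCR
import Pool.Agent.H14.CTN.UB3
import Pool.Agent.H14.CTP.INT
import Pool.Agent.H14.CTT.SG2
import Pool.Agent.H16.CNU.UNF
import Pool.Agent.H16.CTP.R42
import Pool.Agent.H17.CND.LON
import Pool.Agent.H17.CND.ZPW
import Pool.Agent.H17.CNH.HCN
import Pool.Agent.H17.CNH.HXS
import Pool.Agent.H17.CNL.VE2
import Pool.Agent.H17.CNT.PU2
import Pool.Agent.H17.CNU.UND
import Pool.Agent.H17.CNU.UNN
import Pool.Agent.H17.CNV.VSU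
import Pool.Agent.H17.CTN.N41
import Pool.Agent.H17.CTN.N42
import Pool.Agent.H18.CND.HBP
import Pool.Agent.H18.CNH.HTR
import Pool.Agent.H18.CNS.LEX
import Pool.Agent.H18.CNY.YPM
import Pool.Agent.H18.CNY.YTH
import Pool.Agent.H18.CSZ.ZZB
import Pool.Agent.H18.CTN.N47
import Pool.Agent.H19.CNS.PRD
import Pool.Agent.H2.CND.CNG
import Pool.Agent.H2.CNE.SLD
import Pool.Agent.H2.CNE.SLI
import Pool.Agent.H2.CNE.SLO
import Pool.Agent.H2.CNL.VHT
import Pool.Agent.H2.CNT.PU4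
import Pool.Agent.H2.CNT.PUL
import Pool.Agent.H2.CNU.UNS
import Pool.Agent.H2.CNU.UNT
import Pool.Agent.H2.CSZ.ISO
import Pool.Agent.H2.CSZ.ZZC
import Pool.Agent.H2.CTN.AD1
import Pool.Agent.H2.CTN.SMB
import Pool.Agent.H20.CTN.MO2
import Pool.Agent.H20.CTN.N43
import Pool.Agent.H20.CTO.P5D
import Pool.Agent.H20.CTT.SC7
import Pool.Agent.H21.CSZ.ZZK
import Pool.Agent.H21.CSZ.ZZT
import Pool.Agent.H22.CND.ELA
import Pool.Agent.H22.CNJ.HC2
import Pool.Agent.H22.CNL.VPO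
import Pool.Agent.H22.CNX.XT2
import Pool.Agent.H22.CTN.DV0
import Pool.Agent.H22.CTN.GN2
import Pool.Agent.H22.CTO.P53
import Pool.Agent.H22.CTO.P54
import Pool.Agent.H22.CTP.R53
import Pool.Agent.H22.CTT.SC3
import Pool.Agent.H23.CNL.VVG
import Pool.Agent.H23.CNS.FUN
import Pool.Agent.H23.CTN.N48
import Pool.Agent.H23.CTP.XT3
import Pool.Agent.H24.CTN.MO3
import Pool.Agent.H24.CTT.SC13
import Pool.Agent.H25.CNL.VIN
import Pool.Agent.H25.CNU.UNP
import Pool.Agent.H25.CSZ.ZU3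
import Pool.Agent.H26.CNZ.CJC
import Pool.Agent.H26.CNZ.CMU
import Pool.Agent.H26.CNZ.UQM
import Pool.Agent.H26.CTL.LC1
import Pool.Agent.H26.CTN.UMS
import Pool.Agent.H26.CTP.R41
import Pool.Agent.H26.CTT.SU1
import Pool.Agent.H29.CNQ.NQD
import Pool.Agent.H3.CND.ART
import Pool.Agent.H3.CSZ.ZZP
import Pool.Agent.H3.CTT.SC10
import Pool.Agent.H31.CTO.P33
import Pool.Agent.H31.CTO.P42
import Pool.Agent.H31.CTT.SC14
import Pool.Agent.H31.CTT.SC4
import Pool.Agent.H31.CTT.SHC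
import Pool.Agent.H33.CTO.P5H
import Pool.Agent.H34.CND.LO2
import Pool.Agent.H34.CNL.VAS
import Pool.Agent.H34.CNL.VVA
import Pool.Agent.H34.CNS.GDV
import Pool.Agent.H36.CND.CMB
import Pool.Agent.H36.CND.NGD
import Pool.Agent.H36.CND.WLD
import Pool.Agent.H36.CNS.DLS
import Pool.Agent.H36.CTO.P34
import Pool.Agent.H36.CTP.DF2
import Pool.Agent.H36.CTT.SC11
import Pool.Agent.H38.CTP.SFN
import Pool.Agent.H40.CND.TMO
import Pool.Agent.H40.CNE.SLN
import Pool.Agent.H40.CNE.SLR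
import Pool.Agent.H40.CNE.SLU
import Pool.Agent.H40.CNL.VE3
import Pool.Agent.H40.CNP.PSA
import Pool.Agent.H40.CNP.PSO
import Pool.Agent.H40.CNP.PSR
import Pool.Agent.H40.CNP.PSU
import Pool.Agent.H40.CNQ.TRV
import Pool.Agent.H40.CNS.PRL
import Pool.Agent.H40.CNT.PU3
import Pool.Agent.H40.CNU.UNB
import Pool.Agent.H40.CTO.P41
import Pool.Agent.H40.CTT.LTY
import Pool.Agent.H41.CTN.NC1
import Pool.Agent.H41.CTT.SG3
import Pool.Agent.H42.CND.ELG
import Pool.Agent.H42.CNH.ABC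
import Pool.Agent.H42.CNT.PUN
import Pool.Agent.H44.CND.MAX
import Pool.Agent.H44.CNE.SLW
import Pool.Agent.H44.CNS.TAC
import Pool.Agent.H45.CNE.SLX
import Pool.Agent.H45.CNY.HAC
import Pool.Agent.H45.CNY.YOS
import Pool.Agent.H45.CTP.R57
import Pool.Agent.H46.CNK.WCA
import Pool.Agent.H46.CNQ.QU1
import Pool.Agent.H46.CNY.YTA
import Pool.Agent.H46.CTN.FN1
import Pool.Agent.H46.CTT.SC1
import Pool.Agent.H47.CNK.PCQ
import Pool.Agent.H48.CNE.SLE
import Pool.Agent.H48.CTN.HQI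
import Pool.Agent.H49.CNS.NCL
import Pool.Agent.H49.CSZ.ZZX
import Pool.Agent.H49.CTN.GN3
import Pool.Agent.H49.CTT.SU3
import Pool.Agent.H50.CND.SYG
import Pool.Agent.H50.CND.UPA
import Pool.Agent.H50.CNL.VIS
import Pool.Agent.H50.CNQ.EXS
import Pool.Agent.H50.CNT.RSP
import Pool.Agent.H50.CNU.UNK
import Pool.Agent.H50.CSZ.ZU4
import Pool.Agent.H50.CTP.OD2
import Pool.Agent.H51.CNE.SLS
import Pool.Agent.H51.CNL.VIC
import Pool.Agent.H51.CNS.PUB
import Pool.Agent.H51.CNY.YCC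
import Pool.Agent.H51.CSZ.ZZA
import Pool.Agent.H51.CTT.SG1
import Pool.Agent.H52.CND.VEC
import Pool.Agent.H52.CND.WPG
import Pool.Agent.H52.CNK.OBS
import Pool.Agent.H52.CNS.INF
import Pool.Agent.H52.CNU.UNL
import Pool.Agent.H52.CTP.R56
import Pool.Agent.H52.CTT.SC9
import Pool.Agent.H53.CNL.VBZ
import Pool.Agent.H53.CSZ.ZZV
import Pool.Agent.H53.CTP.R33
import Pool.Agent.H54.CND.CONC
import Pool.Agent.H54.CNL.GDW
import Pool.Agent.H54.CNU.UNE
import Pool.Agent.H54.CNV.VB1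
import Pool.Agent.H54.CTN.HC5
import Pool.Agent.H54.CTP.GDX
import Pool.Agent.H54.CTT.SC5
import Pool.Agent.H55.CNE.SLT
import Pool.Agent.H55.CNL.INP
import Pool.Agent.H55.CTT.SC6
import Pool.Agent.H56.CNL.HAP
import Pool.Agent.H56.CNQ.QU2
import Pool.Agent.H56.CTO.P56
import Pool.Agent.H56.CTO.P5E
import Pool.Agent.H56.CTT.SU2
import Pool.Agent.H61.CNE.SLG
import Pool.Agent.H61.CSZ.ZZG
import Pool.Agent.H62.CND.IRR
import Pool.Agent.H62.CNE.SBP
import Pool.Agent.H62.CNE.SLV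
import Pool.Agent.H62.CNH.HAB
import Pool.Agent.H62.CNL.PEE
import Pool.Agent.H62.CNS.QCG
import Pool.Agent.H62.CNU.UNR
import Pool.Agent.H62.CTN.NLB
import Pool.Agent.H62.CTO.PFN
import Pool.Agent.H62.CTP.R54
import Pool.Agent.H62.CTT.SC0
import Pool.Agent.H63.CND.IND
import Pool.Agent.H63.CNX.XRD
import Pool.Agent.H63.CTO.P57
import Pool.Agent.H63.CTT.SC8
import Pool.Agent.H64.CND.INJ
import Pool.Agent.H65.CNL.VDG
import Pool.Agent.H65.CNS.DER
import Pool.Agent.H65.CNT.PU1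
import Pool.Agent.H65.CNV.VGW
import Pool.Agent.H65.CTN.N46
import Pool.Agent.H65.CTO.P55
import Pool.Agent.H66.CNU.UNG
import Pool.Agent.H66.CSZ.ZZR
import Pool.Agent.H66.CTN.MO1
import Pool.Agent.H67.CND.RAM
import Pool.Agent.H67.CNH.HST
import Pool.Agent.H67.CNJ.HC1
import Pool.Agent.H67.CNL.VVB
import Pool.Agent.H67.CNS.DES
import Pool.Agent.H70.CNL.VHY
import Pool.Agent.H70.CNV.VB2
import Pool.Agent.H70.CNZ.CMA
import Pool.Agent.H70.CTN.DF1
import Pool.Agent.H71.CND.UMW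
import Pool.Agent.H71.CNH.INB
import Pool.Agent.H71.CNL.VQQ
import Pool.Agent.H71.CNY.YDV
import Pool.Agent.H71.CSZ.ZU2
import Pool.Agent.H71.CTN.FN4
import Pool.Agent.H71.CTP.R55
import Pool.Agent.H71.CTT.SC2
import Pool.Agent.H72.CNL.KEP
import Pool.Agent.H72.CNS.FRC
import Pool.Agent.H72.CSZ.ZZL
import Pool.Agent.H72.CTL.UMR
import Pool.Agent.H72.CTN.FN2
import Pool.Agent.H72.CTP.R5E
import Pool.Agent.H73.CNP.HBX
import Pool.Agent.H74.CNL.VLA
import Pool.Agent.H74.CNY.YLC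
import Pool.Agent.H74.CNY.YLD
import Pool.Agent.H74.CNZ.CUQ
import Pool.Agent.H74.CTP.UB4
import Pool.Agent.H76.CNK.DRU
import Pool.Agent.H76.CTN.N45
import Pool.Agent.H78.CND.NGL
import Pool.Agent.H78.CND.RST
import Pool.Agent.H78.CNE.SLB
import Pool.Agent.H78.CNE.SLF
import Pool.Agent.H78.CNP.PSB
import Pool.Agent.H78.CNP.RMX
import Pool.Agent.H78.CNP.WAP
import Pool.Agent.H78.CSZ.ZZN
import Pool.Agent.H78.CTN.GN1
import Pool.Agent.H78.CTP.R5D
import Pool.Agent.H79.CNE.TMC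
import Pool.Agent.H79.CNE.TMI
import Pool.Agent.H79.CNE.UPG
import Pool.Agent.H80.CNK.DRH
import Pool.Agent.H80.CNL.VSM
import Pool.Agent.H80.CTN.UM3
import Pool.Agent.H80.CTT.SFI
import Pool.Agent.H81.CNK.PCG
import Pool.Agent.H81.CTN.N49
import Pool.Agent.H86.CNK.WCO
import Pool.Agent.H86.CNL.VCZ
import Pool.Agent.H86.CNL.VML
import Pool.Agent.H86.CNQ.ALL
import Pool.Agent.H86.CNQ.QUO
import Pool.Agent.H86.CNS.PRU
import Pool.Agent.H86.CNU.UNV
import Pool.Agent.H86.CNU.UNX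
import Pool.Agent.H86.CNV.VGP
import Pool.Agent.H86.CNV.VPU
import Pool.Agent.H86.CNV.VZC
import Pool.Agent.H86.CSZ.ZZE
import Pool.Agent.H86.CTN.UB1
import Pool.Agent.H86.CTN.UB2
import Pool.Agent.H86.CTT.SC12
import Pool.Agent.H88.CND.EXP
import Pool.Agent.H88.CND.FXP
import Pool.Agent.H88.CNH.HSD
import Pool.Agent.H89.CNJ.HC3
import Pool.Agent.H89.CNK.DRV
import Pool.Agent.H90.CNP.CNV
import Pool.Agent.H90.CNP.PSW
import Pool.Agent.H90.CNV.TAM
import Pool.Agent.H90.CNY.YCY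
import Pool.Agent.H90.CSZ.ZZF
import Pool.Agent.H90.CSZ.ZZZ
import Pool.Agent.H91.CNL.VVV
import Pool.Agent.H91.CTP.R5H
import Pool.Agent.H93.CND.HER
import Pool.Agent.H93.CNL.VE1
import Pool.Agent.H93.CNL.VI1
import Pool.Agent.H99.CND.SUB
import Pool.Agent.H99.CNE.SRL
import Pool.Agent.H99.CNL.VTG
import Pool.Agent.H99.CNS.LBQ
import Pool.Agent.H99.CNX.XT1
import Pool.Agent.H99.CNY.YLO

/-!
# Denominators of conductors: the rows used, closed
-/

set_option autoImplicit false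

namespace Pool.CND.CLtx

open Pool.CND

theorem rsub : S_SUB := _root_.Pool.CND.sub_thm
theorem rexp : S_EXP := _root_.Pool.CND.exp_thm
theorem rzpw : S_ZPW := _root_.Pool.CND.zpw_thm
theorem rlon : S_LON := _root_.Pool.CND.lon_thm rexp rzpw
theorem rwpg : S_WPG := _root_.Pool.CND.wpg_thm rlon
theorem rtmo : S_TMO := _root_.Pool.CND.tmo_thm rexp
theorem rwld : S_WLD := _root_.Pool.CND.wld_thm rsub rwpg rtmo
theorem rinj : S_INJ := _root_.Pool.CND.inj_thm rlon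
theorem rram : S_RAM := _root_.Pool.CND.ram_thm rlon rinj
theorem rumw : S_UMW := _root_.Pool.CND.umw_thm rram rlon rinj
theorem rtot : S_TOT := _root_.Pool.CND.tot_thm
theorem rfxp : S_FXP := _root_.Pool.CND.fxp_thm rtot
theorem rrst : S_RST := _root_.Pool.CND.rst_thm
theorem rart : S_ART := _root_.Pool.CND.art_thm
theorem rher : S_HER := _root_.Pool.CND.her_thm rlon rinj
theorem rsam : S_SAM := _root_.Pool.CND.sam_thm rlon rinj
theorem rlo2 : S_LO2 := _root_.Pool.CND.lo2_thm rexp rzpw rlon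
theorem rirr : S_IRR := _root_.Pool.CND.irr_thm rlo2
theorem rhbp : S_HBP := _root_.Pool.CND.hbp_thm rfxp rrst rart rher rsam rirr rumw rinj
theorem rcon : S_CON := _root_.Pool.CND.con_thm rram
theorem rmax : S_MAX := _root_.Pool.CND.max_thm
theorem rcmb : S_CMB := _root_.Pool.CND.cmb_thm
theorem relg : S_ELG := _root_.Pool.CND.elg_thm
theorem rela : S_ELA := _root_.Pool.CND.ela_thm relg rcmb
theorem rind : S_IND := _root_.Pool.CND.ind_thm rmax rcmb rela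
theorem ryth : S_YTH := _root_.Pool.CND.yth_thm rexp rlon
theorem rycy : S_YCY := _root_.Pool.CND.ycy_thm2
theorem rylc : S_YLC := _root_.Pool.CND.ylc_thm rexp rlon rram rinj
theorem ryta : S_YTA := _root_.Pool.CND.yta_thm rylc rlon rram rinj rumw
theorem rycc : S_YCC := _root_.Pool.CND.ycc_thm
theorem rycr : S_YCR := _root_.Pool.CND.ycr_thm rycc
theorem rypm : S_YPM := _root_.Pool.CND.ypm_thm
theorem ryos : S_YOS := _root_.Pool.CND.yos_thm rypm
theorem rydv : S_YDV := _root_.Pool.CND.ydv_thm rylc ryos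
theorem rylm : S_YLM := _root_.Pool.CND.ylm_thm
theorem ryld : S_YLD := _root_.Pool.CND.yld_thm
theorem rylo : S_YLO := _root_.Pool.CND.ylo_thm rwld rumw rhbp rcon rind rram ryth rycy ryta rycc rycr rydv rylm ryld
theorem rexs : S_EXS := _root_.Pool.CND.exs_thm
theorem rwap : S_WAP := _root_.Pool.CND.wap_thm
theorem rtrv : S_TRV := _root_.Pool.CND.trv_thm rwap
theorem rqu1 : S_QU1 := _root_.Pool.CND.qu1_thm rexs rtrv
theorem rder : S_DER := _root_.Pool.CND.der_thm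
theorem rlex : S_LEX := _root_.Pool.CND.lex_thm
theorem rdls : S_DLS := _root_.Pool.CND.dls_thm
theorem rdes : S_DES := _root_.Pool.CND.des_thm rlex rdls
theorem rrmx : S_RMX := _root_.Pool.CND.rmx_thm rwap
theorem rfun : S_FUN := _root_.Pool.CND.fun_thm rrmx
theorem rinf : S_INF := _root_.Pool.CND.inf_thm rrmx rtot
theorem rexi : S_EXI := _root_.Pool.CND.exi_thm
theorem rreg : S_REG := _root_.Pool.CND.reg_thm rexi
theorem rfrc : S_FRC := _root_.Pool.CND.frc_thm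
theorem rtac : S_TAC := _root_.Pool.CND.tac_thm rder rdes rfun rinf rreg rfrc rtrv rwld
theorem rrsp : S_RSP := _root_.Pool.CND.rsp_thm
theorem rncl : S_NCL := _root_.Pool.CND.ncl_thm rqu1 rtrv rwld rtac rrsp
theorem ruqt : S_UQT := _root_.Pool.CND.uqt_thm
theorem rabc : S_ABC := _root_.Pool.CND.abc_thm
theorem rhcn : S_HCN := _root_.Pool.CND.hcn_thm
theorem rhxs : S_HXS := _root_.Pool.CND.hxs_thm
theorem rvec : S_VEC := _root_.Pool.CND.vec_thm
theorem rhtr : S_HTR := _root_.Pool.CND.htr_thm rtot rvec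
theorem rhsd : S_HSD := _root_.Pool.CND.hsd_thm
theorem rhst : S_HST := _root_.Pool.CND.hst_thm rhcn rhxs rhtr rhsd rlon rinj
theorem rhcy : S_HCY := _root_.Pool.CND.hcy_thm rhst rfxp rrst rart rher rlon rinj
theorem rhab : S_HAB := _root_.Pool.CND.hab_thm rabc rfxp rrst rart rher rhcy ruqt rhsd rlon rinj rumw rwld rsub
theorem rhac : S_HAC := _root_.Pool.CND.hac_thm rfxp rrst rart rher ruqt rhab rumw rram rtot
theorem rdru : S_DRU := _root_.Pool.CND.dru_thm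
theorem rkep : S_KEP := _root_.Pool.CND.kep_thm rdru
theorem rdrv : S_DRV := _root_.Pool.CND.drv_thm rdru
theorem rpee : S_PEE := _root_.Pool.CND.pee_thm rkep rdrv rdru rrmx rtot rvec rwld
theorem rvas : S_VAS := _root_.Pool.CND.vas_thm rumw
theorem rvsm : S_VSM := _root_.Pool.CND.vsm_thm rvas rfxp rrst rher rart rram
theorem robs : S_OBS := _root_.Pool.CND.obs_thm
theorem rhbx : S_HBX := _root_.Pool.CND.hbx_thm rher rfxp rrst rart rumw rinj rlo2
theorem rvhy : S_VHY := _root_.Pool.CND.vhy_thm rvas rrmx rhbx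
theorem rvva : S_VVA := _root_.Pool.CND.vva_thm rvas rfxp rrst rher rart rinj rtot
theorem rvvb : S_VVB := _root_.Pool.CND.vvb_thm rvas rtot rvec
theorem rvvv : S_VVV := _root_.Pool.CND.vvv_thm rvas rvva rvvb rtot rvec
theorem rvic : S_VIC := _root_.Pool.CND.vic_thm rvas
theorem rvis : S_VIS := _root_.Pool.CND.vis_thm robs rvhy rvvv rvic rvas
theorem rwca : S_WCA := _root_.Pool.CND.wca_thm
theorem rvqq : S_VQQ := _root_.Pool.CND.vqq_thm rwca
theorem rvdg : S_VDG := _root_.Pool.CND.vdg_thm rvas rrmx rtot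
theorem rvml : S_VML := _root_.Pool.CND.vml_thm rvqq rvdg rwca
theorem rwco : S_WCO := _root_.Pool.CND.wco_thm
theorem rvbz : S_VBZ := _root_.Pool.CND.vbz_thm rvhy rvvv
theorem rve1 : S_VE1 := _root_.Pool.CND.ve1_thm rvas rwco rwca rvvv rvbz
theorem rve2 : S_VE2 := _root_.Pool.CND.ve2_thm rvas rwca rvvv
theorem rvht : S_VHT := _root_.Pool.CND.vht_thm rvas rvsm rrmx rlo2 rinj
theorem rvvg : S_VVG := _root_.Pool.CND.vvg_thm rvht rvas
theorem rdrh : S_DRH := _root_.Pool.CND.drh_thm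
theorem rve3 : S_VE3 := _root_.Pool.CND.ve3_thm rvvg rdrh rvvv rvas
theorem rvla : S_VLA := _root_.Pool.CND.vla_thm rvis rvml rve1 rve2 rve3
theorem rvi1 : S_VI1 := _root_.Pool.CND.vi1_thm rvla
theorem rvpo : S_VPO := _root_.Pool.CND.vpo_thm rvas rlon rinj
theorem rpcg : S_PCG := _root_.Pool.CND.pcg_thm
theorem rpcq : S_PCQ := _root_.Pool.CND.pcq_thm
theorem rvin : S_VIN := _root_.Pool.CND.vin_thm rvi1 rvsm rvpo rpcg rpcq rvas
theorem rvtg : S_VTG := _root_.Pool.CND.vtg_thm rvhy rvvv rvvg rvas rtot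
theorem rvcz : S_VCZ := _root_.Pool.CND.vcz_thm rvin rvtg rvsm rvpo rpcq rvas
theorem rhap : S_HAP := _root_.Pool.CND.hap_thm rhac rpee rvsm rvcz ruqt rumw
theorem rinp : S_INP := _root_.Pool.CND.inp_thm rhap rmax rcmb rhbp rumw
theorem rngd : S_NGD := _root_.Pool.CND.ngd_thm
theorem rgdw : S_GDW := _root_.Pool.CND.gdw_thm rylo rncl rinp rcon rngd rram
theorem rub1 : S_UB1 := _root_.Pool.CND.ub1_thm
theorem rub2 : S_UB2 := _root_.Pool.CND.ub2_thm
theorem rub3 : S_UB3 := _root_.Pool.CND.ub3_thm rgdw rub1 rub2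
theorem rdf1 : S_DF1 := _root_.Pool.CND.df1_thm rtot
theorem rdf2 : S_DF2 := _root_.Pool.CND.df2_thm rdf1
theorem rdv0 : S_DV0 := _root_.Pool.CND.dv0_thm rlex rdls
theorem rod2 : S_OD2 := _root_.Pool.CND.od2_thm rdf1 rdf2 rdv0
theorem rint : S_INT := _root_.Pool.CND.int_thm rod2 rhbp rumw rsub
theorem rgdx : S_GDX := _root_.Pool.CND.gdx_thm rylo rncl rinp rint rcon rngd rram
theorem rub4 : S_UB4 := _root_.Pool.CND.ub4_thm rub1 rub2 rgdx
theorem rpu1 : S_PU1 := _root_.Pool.CND.pu1_thm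
theorem rpu2 : S_PU2 := _root_.Pool.CND.pu2_thm
theorem rpu3 : S_PU3 := _root_.Pool.CND.pu3_thm rrsp
theorem rpu4 : S_PU4 := _root_.Pool.CND.pu4_thm rvec rram rinj rlo2 rwpg rtmo
theorem rslx : S_SLX := _root_.Pool.CND.slx_thm
theorem rpub : S_PUB := _root_.Pool.CND.pub_thm rpu1 rpu2 rpu3 rpu4 rlo2 rram rinj rrmx rslx
theorem rcma : S_CMA := _root_.Pool.CND.cma_thm
theorem rcmu : S_CMU := _root_.Pool.CND.cmu_thm rrsp
theorem ruqm : S_UQM := _root_.Pool.CND.uqm_thm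
theorem rcnv : S_CNV := _root_.Pool.CND.cnv_thm rram rumw
theorem rqcg : S_QCG := _root_.Pool.CND.qcg_thm rrsp rtot rrmx rfxp rrst rart rher rtrv rwld rtmo rram rumw rinj rlon ruqm ruqt rcon rcnv rsub
theorem rcjc : S_CJC := _root_.Pool.CND.cjc_thm rtrv
theorem rcuq : S_CUQ := _root_.Pool.CND.cuq_thm
theorem rlbq : S_LBQ := _root_.Pool.CND.lbq_thm rinf rlon rtrv rwld rsub
theorem rprl : S_PRL := _root_.Pool.CND.prl_thm rpub rcma rcmu rqu1 rqcg rcjc rcuq rtac rlbq rcnv rexi rwld rsub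
theorem rpru : S_PRU := _root_.Pool.CND.pru_thm rqu1 rqcg
theorem rpul : S_PUL := _root_.Pool.CND.pul_thm rpu1 rpu2 rpu3 rpu4 rrmx rslx
theorem rsyg : S_SYG := _root_.Pool.CND.syg_thm
theorem rupa : S_UPA := _root_.Pool.CND.upa_thm rwld rumw rhbp rsyg rind rcon
theorem rpun : S_PUN := _root_.Pool.CND.pun_thm rpul rupa
theorem rall : S_ALL := _root_.Pool.CND.all_thm rpun
theorem rcng : S_CNG := _root_.Pool.CND.cng_thm
theorem rprd : S_PRD := _root_.Pool.CND.prd_thm rprl rpru rall rupa rngd rcng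
theorem rprf : S_PRF := _root_.Pool.CND.prf_thm rprl rprd rcng rtac rcnv rexi rsub
theorem rsc1 : S_SC1 := _root_.Pool.CND.sc1_thm
theorem rsc0 : S_SC0 := _root_.Pool.CND.sc0_thm
theorem rsc3 : S_SC3 := _root_.Pool.CND.sc3_thm rexi rsc1 rsc0
theorem rsc7 : S_SC7 := _root_.Pool.CND.sc7_thm
theorem rsc5 : S_SC5 := _root_.Pool.CND.sc5_thm rwld
theorem rsc8 : S_SC8 := _root_.Pool.CND.sc8_thm
theorem rsc9 : S_SC9 := _root_.Pool.CND.sc9_thm
theorem rumr : S_UMR := _root_.Pool.CND.umr_thm rhbx rtot ruqm rcmb rumw rsub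
theorem rsc10 : S_SC10 := _root_.Pool.CND.sc10_thm rsc5 rsc8 rsc9 rumr rinf rtot rwld rcnv
theorem rsg1 : S_SG1 := _root_.Pool.CND.sg1_thm
theorem rsg3 : S_SG3 := _root_.Pool.CND.sg3_thm rsg1
theorem rsc11 : S_SC11 := _root_.Pool.CND.sc11_thm rsc3 rsc7 rsc10 rsg3
theorem rsc2 : S_SC2 := _root_.Pool.CND.sc2_thm rexi rsc1 rsc0
theorem rsc6 : S_SC6 := _root_.Pool.CND.sc6_thm
theorem rsc4 : S_SC4 := _root_.Pool.CND.sc4_thm rwld
theorem rsc12 : S_SC12 := _root_.Pool.CND.sc12_thm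
theorem rlc1 : S_LC1 := _root_.Pool.CND.lc1_thm rcnv rumw
theorem rsc13 : S_SC13 := _root_.Pool.CND.sc13_thm rsc4 rsc8 rsc12 rumr rlc1 rinf rtot rwld
theorem rsg2 : S_SG2 := _root_.Pool.CND.sg2_thm rsg1
theorem rsc14 : S_SC14 := _root_.Pool.CND.sc14_thm rsc2 rsc6 rsc13 rsg2
theorem rqu2 : S_QU2 := _root_.Pool.CND.qu2_thm rrsp rtot rrmx rlo2 rinj rtrv rram rsub rwld rart rumw rcon rcnv
theorem rquo : S_QUO := _root_.Pool.CND.quo_thm rqu1 rqu2
theorem rnqd : S_NQD := _root_.Pool.CND.nqd_thm rquo rall rngd rupa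
theorem rsu1 : S_SU1 := _root_.Pool.CND.su1_thm
theorem rsu2 : S_SU2 := _root_.Pool.CND.su2_thm
theorem rsu3 : S_SU3 := _root_.Pool.CND.su3_thm rgdw rsu1 rsu2
theorem rsfi : S_SFI := _root_.Pool.CND.sfi_thm rsc11 rsc14 rall rnqd rsu3
theorem rshc : S_SHC := _root_.Pool.CND.shc_thm rsc11 rqu1
theorem rp41 : S_P41 := _root_.Pool.CND.p41_thm rexi
theorem rp42 : S_P42 := _root_.Pool.CND.p42_thm rwld
theorem rp53 : S_P53 := _root_.Pool.CND.p53_thm
theorem rp54 : S_P54 := _root_.Pool.CND.p54_thm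
theorem rp5d : S_P5D := _root_.Pool.CND.p5d_thm rp54
theorem rp5e : S_P5E := _root_.Pool.CND.p5e_thm rp53 rp54 rp5d
theorem rmo1 : S_MO1 := _root_.Pool.CND.mo1_thm
theorem rmo2 : S_MO2 := _root_.Pool.CND.mo2_thm
theorem rmo3 : S_MO3 := _root_.Pool.CND.mo3_thm
theorem rp5h : S_P5H := _root_.Pool.CND.p5h_thm rmo1 rmo2 rmo3
theorem rp55 : S_P55 := _root_.Pool.CND.p55_thm rumr rinf rtot rwld
theorem rxt1 : S_XT1 := _root_.Pool.CND.xt1_thm
theorem rxt2 : S_XT2 := _root_.Pool.CND.xt2_thm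
theorem rxrd : S_XRD := _root_.Pool.CND.xrd_thm
theorem rp56 : S_P56 := _root_.Pool.CND.p56_thm rumr rxt1 rxt2 rxrd
theorem rp33 : S_P33 := _root_.Pool.CND.p33_thm
theorem rgn3 : S_GN3 := _root_.Pool.CND.gn3_thm
theorem rp34 : S_P34 := _root_.Pool.CND.p34_thm rgn3
theorem rp57 : S_P57 := _root_.Pool.CND.p57_thm rsub rp41 rp42 rp53 rp54 rp5d rp5e rp5h rp55 rp56 rlc1 rp33 rp34
theorem rfn3 : S_FN3 := _root_.Pool.CND.fn3_thm
theorem rfn4 : S_FN4 := _root_.Pool.CND.fn4_thm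
theorem rfn1 : S_FN1 := _root_.Pool.CND.fn1_thm
theorem rfn2 : S_FN2 := _root_.Pool.CND.fn2_thm
theorem rn41 : S_N41 := _root_.Pool.CND.n41_thm rfn1 rfn2 rexi
theorem rn42 : S_N42 := _root_.Pool.CND.n42_thm rwld
theorem rn44 : S_N44 := _root_.Pool.CND.n44_thm rmo1 rmo2
theorem rn45 : S_N45 := _root_.Pool.CND.n45_thm
theorem rn43 : S_N43 := _root_.Pool.CND.n43_thm
theorem rn46 : S_N46 := _root_.Pool.CND.n46_thm rmo1 rmo3 rn43
theorem rn47 : S_N47 := _root_.Pool.CND.n47_thm rn43 rn46 rn44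
theorem rn48 : S_N48 := _root_.Pool.CND.n48_thm rn44 rn45 rn46 rn42
theorem rhqi : S_HQI := _root_.Pool.CND.hqi_thm rher rfxp rrst rinj rlo2
theorem rsmb : S_SMB := _root_.Pool.CND.smb_thm rhqi
theorem rad1 : S_AD1 := _root_.Pool.CND.ad1_thm rdf1 rdv0 rhbx rtot rram rlon
theorem rums : S_UMS := _root_.Pool.CND.ums_thm
theorem rum3 : S_UM3 := _root_.Pool.CND.um3_thm rad1 rums rumw rsub
theorem rn49 : S_N49 := _root_.Pool.CND.n49_thm rn42 rn44 rn45 rn47 rn48 rsmb rum3 rinf rtot rcnv rwld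
theorem rgn1 : S_GN1 := _root_.Pool.CND.gn1_thm rgn3
theorem rgn2 : S_GN2 := _root_.Pool.CND.gn2_thm rgn3
theorem rnc1 : S_NC1 := _root_.Pool.CND.nc1_thm rfn3 rfn4 rn41 rn49 rgn1 rgn2
theorem rar1 : S_AR1 := _root_.Pool.CND.ar1_thm
theorem rnlb : S_NLB := _root_.Pool.CND.nlb_thm rnc1 rar1 rall
theorem rpfn : S_PFN := _root_.Pool.CND.pfn_thm rp57 rall rnlb rnqd rub3
theorem rr41 : S_R41 := _root_.Pool.CND.r41_thm rexi
theorem rr42 : S_R42 := _root_.Pool.CND.r42_thm rwld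
theorem rr53 : S_R53 := _root_.Pool.CND.r53_thm
theorem rr54 : S_R54 := _root_.Pool.CND.r54_thm
theorem rr5d : S_R5D := _root_.Pool.CND.r5d_thm rr54
theorem rr5e : S_R5E := _root_.Pool.CND.r5e_thm rr53 rr54 rr5d
theorem rr5h : S_R5H := _root_.Pool.CND.r5h_thm rmo1 rmo2 rmo3
theorem rr55 : S_R55 := _root_.Pool.CND.r55_thm rumr rinf rtot rwld
theorem rxt3 : S_XT3 := _root_.Pool.CND.xt3_thm
theorem rr56 : S_R56 := _root_.Pool.CND.r56_thm rumr rxt3
theorem rr33 : S_R33 := _root_.Pool.CND.r33_thm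
theorem rr57 : S_R57 := _root_.Pool.CND.r57_thm rr41 rr42 rr53 rr54 rr5d rr5e rr5h rr55 rr56 rlc1 rr33 rp34
theorem rrfn : S_RFN := _root_.Pool.CND.rfn_thm rr57 rall rnlb rnqd rub4
theorem rsfn : S_SFN := _root_.Pool.CND.sfn_thm rpfn rrfn
theorem rsrl : S_SRL := _root_.Pool.CND.srl_thm
theorem rlsp : S_LSP := _root_.Pool.CND.lsp_thm
theorem rsbp : S_SBP := _root_.Pool.CND.sbp_thm
theorem rsls : S_SLS := _root_.Pool.CND.sls_thm
theorem rslv : S_SLV := _root_.Pool.CND.slv_thm rsls rvec rslx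
theorem rslt : S_SLT := _root_.Pool.CND.slt_thm
theorem rslm : S_SLM := _root_.Pool.CND.slm_thm
theorem rsld : S_SLD := _root_.Pool.CND.sld_thm rslv rslt rslm
theorem rslg : S_SLG := _root_.Pool.CND.slg_thm
theorem rsle : S_SLE := _root_.Pool.CND.sle_thm rsrl rlsp rsbp rsls rsld rslg
theorem rsli : S_SLI := _root_.Pool.CND.sli_thm
theorem rhc1 : S_HC1 := _root_.Pool.CND.hc1_thm rsle rsli rqu1
theorem runl : S_UNL := _root_.Pool.CND.unl_thm
theorem runr : S_UNR := _root_.Pool.CND.unr_thm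
theorem runs : S_UNS := _root_.Pool.CND.uns_thm
theorem runx : S_UNX := _root_.Pool.CND.unx_thm
theorem runv : S_UNV := _root_.Pool.CND.unv_thm runs runx rvec
theorem runt : S_UNT := _root_.Pool.CND.unt_thm
theorem rund : S_UND := _root_.Pool.CND.und_thm runr runv runt rslm
theorem runc : S_UNC := _root_.Pool.CND.unc_thm
theorem rung : S_UNG := _root_.Pool.CND.ung_thm runc
theorem rune : S_UNE := _root_.Pool.CND.une_thm runl rlsp rsbp runr runs rund rung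
theorem runk : S_UNK := _root_.Pool.CND.unk_thm
theorem rhc2 : S_HC2 := _root_.Pool.CND.hc2_thm rune runk rqu1
theorem rzzl : S_ZZL := _root_.Pool.CND.zzl_thm
theorem rzzr : S_ZZR := _root_.Pool.CND.zzr_thm
theorem rzza : S_ZZA := _root_.Pool.CND.zza_thm
theorem rzzx : S_ZZX := _root_.Pool.CND.zzx_thm
theorem rzzv : S_ZZV := _root_.Pool.CND.zzv_thm rzza rzzx
theorem rzzt : S_ZZT := _root_.Pool.CND.zzt_thm
theorem rzzb : S_ZZB := _root_.Pool.CND.zzb_thm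
theorem rzzc : S_ZZC := _root_.Pool.CND.zzc_thm rzzb
theorem rzzg : S_ZZG := _root_.Pool.CND.zzg_thm rzzc
theorem rzze : S_ZZE := _root_.Pool.CND.zze_thm rzzl rlsp rsbp rzzr rzzv rzzt rzzg
theorem rzzk : S_ZZK := _root_.Pool.CND.zzk_thm
theorem rhc3 : S_HC3 := _root_.Pool.CND.hc3_thm rzze rzzk
theorem rhc5 : S_HC5 := _root_.Pool.CND.hc5_thm rnc1 rqu1
theorem rpsa : S_PSA := _root_.Pool.CND.psa_thm
theorem rslf : S_SLF := _root_.Pool.CND.slf_thm rvec rslx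
theorem rpsb : S_PSB := _root_.Pool.CND.psb_thm rfxp rslf rlo2 rtmo rram rlon rinj
theorem rslb : S_SLB := _root_.Pool.CND.slb_thm rslf rram rlon rinj rtmo rlo2
theorem rsln : S_SLN := _root_.Pool.CND.sln_thm rslf rslb
theorem rslo : S_SLO := _root_.Pool.CND.slo_thm rsle rsli rsln
theorem rpso : S_PSO := _root_.Pool.CND.pso_thm rsle rpsa rpsb rslo
theorem rtmi : S_TMI := _root_.Pool.CND.tmi_thm rexp rlon rinj
theorem rtmc : S_TMC := _root_.Pool.CND.tmc_thm rexp rlon rinj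
theorem rupg : S_UPG := _root_.Pool.CND.upg_thm rwld rsub rumw rhbp rela rcon rtmi rtmc
theorem rslw : S_SLW := _root_.Pool.CND.slw_thm
theorem rpsw : S_PSW := _root_.Pool.CND.psw_thm rslw
theorem rpsu : S_PSU := _root_.Pool.CND.psu_thm rupg rpsw
theorem rngl : S_NGL := _root_.Pool.CND.ngl_thm
theorem rpsr : S_PSR := _root_.Pool.CND.psr_thm rpso rpsu rngl
theorem rslu : S_SLU := _root_.Pool.CND.slu_thm rupg rslw
theorem rslr : S_SLR := _root_.Pool.CND.slr_thm rslo rslu rngl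
theorem rinb : S_INB := _root_.Pool.CND.inb_thm rhab rmax rcmb rhbp rumw
theorem rtam : S_TAM := _root_.Pool.CND.tam_thm rylo rylm rcon rinb
theorem runb : S_UNB := _root_.Pool.CND.unb_thm
theorem rvb1 : S_VB1 := _root_.Pool.CND.vb1_thm runb
theorem rvb2 : S_VB2 := _root_.Pool.CND.vb2_thm runb
theorem rvgw : S_VGW := _root_.Pool.CND.vgw_thm rvb1 rvb2
theorem rvzc : S_VZC := _root_.Pool.CND.vzc_thm
theorem runf : S_UNF := _root_.Pool.CND.unf_thm rvec runx runb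
theorem runn : S_UNN := _root_.Pool.CND.unn_thm runf runb rram rlon rinj rtmo rlo2
theorem runo : S_UNO := _root_.Pool.CND.uno_thm rune runk runn
theorem runp : S_UNP := _root_.Pool.CND.unp_thm runo rpun
theorem rvsu : S_VSU := _root_.Pool.CND.vsu_thm rtam rvgw rvzc rngd runp
theorem rvgp : S_VGP := _root_.Pool.CND.vgp_thm rvgw rvzc
theorem rvpu : S_VPU := _root_.Pool.CND.vpu_thm rtam rvgp rvzc rngd rnqd runp
theorem rzzf : S_ZZF := _root_.Pool.CND.zzf_thm rzzk rinf rzzb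
theorem rzzn : S_ZZN := _root_.Pool.CND.zzn_thm rzzf rzzb rram rlon rinj rtmo rlo2
theorem rzzp : S_ZZP := _root_.Pool.CND.zzp_thm rzze rzzk rzzn rpun
theorem rinc : S_INC := _root_.Pool.CND.inc_thm rmax rcmb rhbp rumw rhac
theorem rgdv : S_GDV := _root_.Pool.CND.gdv_thm rylo rncl rinc rcon rngd rram
theorem rzu1 : S_ZU1 := _root_.Pool.CND.zu1_thm rzzb rzzc
theorem riso : S_ISO := _root_.Pool.CND.iso_thm
theorem rzu2 : S_ZU2 := _root_.Pool.CND.zu2_thm riso rzzb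
theorem rzu3 : S_ZU3 := _root_.Pool.CND.zu3_thm rzzb
theorem rzu4 : S_ZU4 := _root_.Pool.CND.zu4_thm rgdv rzu1 rzu2 rzu3 rzzb
theorem rzzz : S_ZZZ := _root_.Pool.CND.zzz_thm rzzp rzu4
theorem rlty : S_LTY := _root_.Pool.CND.lty_thm rprf rsfi rshc rsfn rhc1 rhc2 rhc3 rhc5 rpsr rslr rvsu rvpu rnqd rvzc rzzz rcng

end Pool.CND.CLtx
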