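import Pool.Agent.H37.CND2.CPmx
set_option autoImplicit false
namespace Pool.CND

theorem cyc_aux (p : ℕ) (G : Type) [Group G] [Finite G] (A : Subgroup G) (hp : p.Prime)
    (hA : A.Normal) (hE : (∀ a ∈ A, a ^ p = 1) ∧ ∀ a ∈ A, ∀ b ∈ A, a * b = b * a)
    (hc : IsCyclic (commutator G)) :
    (Subgroup.centralizer (A : Set G)).index = 1 ∨
      ∃ C : Subgroup G, Nat.card C = p ∧ ∀ g : G, ∀ a ∈ A, g * a * g⁻¹ * a⁻¹ ∈ C := by
  classical
  have := Fact.mk hp
  by_cases h : ∀ g : G, ∀ a ∈ A, g * a * g⁻¹ * a⁻¹ = 1
  · left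
    have : Subgroup.centralizer (A : Set G) = ⊤ := by
      rw [eq_top_iff]
      intro g _
      rw [Subgroup.mem_centralizer_iff]
      intro a ha
      have := h g a ha
      have h1 : g * a * g⁻¹ = a := by simpa [mul_inv_eq_one] using this
      exact (mul_inv_eq_iff_eq_mul.mp h1).symm
    rw [this, Subgroup.index_top]
  · right
    push Not at h
    obtain ⟨g₀, a₀, ha₀, h0⟩ := h
    have hmem : ∀ g : G, ∀ a ∈ A, g * a * g⁻¹ * a⁻¹ ∈ A ∧ g * a * g⁻¹ * a⁻¹ ∈ commutator G := by
      intro g a ha
      refine ⟨A.mul_mem (hA.conj_mem a ha g) (A.inv_mem ha), ?_⟩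
      exact Subgroup.commutator_mem_commutator (Subgroup.mem_top g) (Subgroup.mem_top a)
    set c := g₀ * a₀ * g₀⁻¹ * a₀⁻¹ with hcdef
    have hcp : c ^ p = 1 := hE.1 _ (hmem g₀ a₀ ha₀).1
    have hord : orderOf c = p := orderOf_eq_prime hcp h0
    refine ⟨Subgroup.zpowers c, by rw [Nat.card_zpowers, hord], ?_⟩
    intro g a ha
    obtain ⟨h1, h2⟩ := hmem g a ha
    have hxp := hE.1 _ h1
    -- in the cyclic group, elements of exponent p are in zpowers c
    let x : commutator G := ⟨_, h2⟩
    let y : commutator G := ⟨c, (hmem g₀ a₀ ha₀).2⟩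
    have hy : orderOf y = p := by
      rw [← Subgroup.orderOf_coe]; exact hord
    have hx : x ^ p = 1 := by
      apply Subtype.ext
      simpa [x] using hxp
    have key : x ∈ Subgroup.zpowers y := by
      have hfin : Finite (commutator G) := inferInstance
      let _ := Fintype.ofFinite (commutator G)
      have hle := IsCyclic.card_pow_eq_one_le (α := commutator G) hp.pos
      by_contra hx'
      have hsub : (insert x ((Subgroup.zpowers y : Set (commutator G)).toFinset)) ⊆
          Finset.univ.filter (fun a : commutator G => a ^ p = 1) := by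
        intro z hz
        rw [Finset.mem_insert] at hz
        rw [Finset.mem_filter]
        refine ⟨Finset.mem_univ _, ?_⟩
        rcases hz with rfl | hz
        · exact hx
        · rw [Set.mem_toFinset] at hz
          obtain ⟨n, rfl⟩ := hz
          show (y ^ n) ^ p = 1
          rw [← zpow_natCast, ← zpow_mul, mul_comm, zpow_mul, zpow_natCast, ← hy,
            pow_orderOf_eq_one, one_zpow]
      have h3 := Finset.card_le_card hsub
      rw [Finset.card_insert_of_notMem (by rwa [Set.mem_toFinset])] at h3
      have h4 : ((Subgroup.zpowers y : Set (commutator G)).toFinset).card = p := by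
        rw [Set.toFinset_card, ← Nat.card_eq_fintype_card]
        exact (Nat.card_zpowers y).trans hy
      omega
    obtain ⟨n, hn⟩ := key
    refine ⟨n, ?_⟩
    have := congrArg (Subtype.val) hn
    simpa [x, y] using this

end Pool.CND
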