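import Pool.Agent.H37.CND2.All

/-!
# Denominators of conductors: central quotients of `SL_2(q)` and `SU_3(q)`
-/

set_option autoImplicit false

namespace Pool.CND

/-- between `G` and `G / Z` -/
theorem ng_between {p : ℕ} {k G : Type} [Field k] [IsAlgClosed k] [Group G] [Finite G]
    (hp : p.Prime) (hk : CharP k p) (Z C : Subgroup G) [Z.Normal] [C.Normal] (hC : C ≤ Z)
    (hZ : ¬ p ∣ Nat.card Z) (v : ℕ) (h1 : NG k G = v) (h2 : NG k (G ⧸ Z) = v) :
    NG k (G ⧸ C) = v := by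
  have hCc : ¬ p ∣ Nat.card C := fun h => hZ (h.trans (Subgroup.card_dvd_of_le hC))
  have a1 : v ∣ NG k (G ⧸ C) := by
    have := rnqd p k G C hp hk hCc
    rwa [h1] at this
  have hM : ¬ p ∣ Nat.card (Z.map (QuotientGroup.mk' C)) := fun h =>
    hZ (h.trans (Subgroup.card_map_dvd Z (QuotientGroup.mk' C)))
  have a2 : NG k (G ⧸ C) ∣ v := by
    have := rnqd p k (G ⧸ C) (Z.map (QuotientGroup.mk' C)) hp hk hM
    rwa [rcng k _ (G ⧸ Z) ⟨QuotientGroup.quotientQuotientEquivQuotient C Z hC⟩, h2] at this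
  exact Nat.dvd_antisymm a2 a1

theorem rank_sl (p : ℕ) (k F : Type) [Field k] [IsAlgClosed k] [Field F] (f q : ℕ)
    (hp : p.Prime) (hk : CharP k p) (hf : 1 ≤ f) (hq : q = p ^ f) (hF : Nat.card F = q)
    (C : Subgroup (Matrix.SpecialLinearGroup (Fin 2) F)) [C.Normal]
    (hC : C ≤ Subgroup.center (Matrix.SpecialLinearGroup (Fin 2) F)) :
    NG k (Matrix.SpecialLinearGroup (Fin 2) F ⧸ C) = (q - 1) / Nat.gcd 2 (q - 1) := by
  have := Fact.mk hp
  have : Finite F := Nat.finite_of_card_ne_zero (by rw [hF, hq]; exact pow_ne_zero _ hp.ne_zero)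
  have : Fintype F := Fintype.ofFinite F
  have : CharP F p := by
    obtain ⟨r, hr⟩ := CharP.exists F
    obtain ⟨n, hr1, hr2⟩ := FiniteField.card F r
    rw [Nat.card_eq_fintype_card, hr2, hq] at hF
    have : p = r := by
      have h1 : p ∣ r ^ (n : ℕ) := hF ▸ dvd_pow_self p (by omega)
      exact (Nat.prime_dvd_prime_iff_eq hp hr1).1 (hp.dvd_of_dvd_pow h1)
    rw [this]; exact hr
  have hZ : ¬ p ∣ Nat.card (Subgroup.center (Matrix.SpecialLinearGroup (Fin 2) F)) := by
    intro h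
    obtain ⟨g, hg⟩ := exists_prime_orderOf_dvd_card' p h
    set u := Matrix.SpecialLinearGroup.center_equiv_rootsOfUnity g with hu
    have h1 : u ^ p = 1 := by
      rw [hu, ← map_pow, ← hg, pow_orderOf_eq_one, map_one]
    have h2 : ((u : Fˣ) : F) ^ p = 1 := by
      have := congrArg (fun x => ((x : Fˣ) : F)) (congrArg Subtype.val h1)
      simpa using this
    have h3 : (((u : Fˣ) : F) - 1) ^ p = 0 := by
      rw [sub_pow_char, h2, one_pow, sub_self]
    have h4 : ((u : Fˣ) : F) = 1 := sub_eq_zero.1 (pow_eq_zero_iff hp.ne_zero |>.1 h3)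
    have h5 : u = 1 := by
      apply Subtype.ext
      apply Units.ext
      simpa using h4
    have h6 : g = 1 := by
      apply Matrix.SpecialLinearGroup.center_equiv_rootsOfUnity.injective
      rw [← hu, h5, map_one]
    rw [h6, orderOf_one] at hg
    exact hp.one_lt.ne hg
  exact ng_between hp hk _ C hC hZ _ (rslr p k F f q hp hk hf hq hF)
    (rpsr p k F f q hp hk hf hq hF)

theorem rank_su (p : ℕ) (k F : Type) [Field k] [IsAlgClosed k] [Field F] (f q : ℕ)
    (σ : F →+* F) (hp : p.Prime) (hk : CharP k p) (hf : 1 ≤ f) (hq : q = p ^ f)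
    (hF : Nat.card F = q ^ 2) (hσ : ∀ a, σ a = a ^ q) (C : Subgroup (SU3 σ)) [C.Normal]
    (hC : C ≤ Subgroup.center (SU3 σ)) : NG k (SU3 σ ⧸ C) = q * (q - 1) := by
  obtain ⟨h1, h2⟩ := rvzc p F f q σ hp hf hq hF hσ
  have := h1
  exact ng_between hp hk _ C hC h2 _ (rvsu p k F f q σ hp hk hf hq hF hσ)
    (rvpu p k F f q σ hp hk hf hq hF hσ)

end Pool.CND
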